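import Pool.Agent.H29.EX.Targets
import Pool.Agent.H62.DP.BEX

/-!
# Two dilations: module BER (average over a small set with a test polynomial of dilation r)
-/

set_option autoImplicit false

open Complex MeasureTheory Set

namespace Pool.Agent.H17.EX.BER

open Pool.Agent.H29.EX Pool.Agent.H25.DL Pool.Agent.H25.DP Pool.Agent.H52.DP.BD1
open Pool.Agent.H62.DP.BEX (core2 tp4 bnd)
open Pool.Agent.H62.DP (RDX.continuous_TP)

lemma TQ_eq (r : ℝ) (X : ℕ) (σ : ℕ → ℂ) (u : ℝ) : TQ r X σ u = TP X σ (r * u) := rfl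

/-- Hoelder with exponents `2, 6, 4, 12` -/
lemma core3 {E : Set ℝ} {H K : ℝ} (hE : E ⊆ Icc H K) {p q g : ℝ → ℝ}
    (hp : Continuous p) (hq : Continuous q) (hg : Continuous g) :
    (∫ t in E, p t * q t * g t) ^ 12 ≤
      (∫ t in E, q t ^ 2) ^ 6 * ((∫ t in E, p t ^ 6) ^ 2 * volume.real E) *
        (∫ t in E, g t ^ 4) ^ 3 := by
  have h1 := cs hE (P := q) (Q := fun t => p t * g t) hq (by fun_prop)
  have h2 := cs hE (P := fun t => p t ^ 2) (Q := fun t => g t ^ 2) (by fun_prop) (by fun_prop)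
  have h3 := cs hE (P := fun t => p t) (Q := fun t => p t ^ 3) (by fun_prop) (by fun_prop)
  have h4 := cs hE (P := fun _ => (1 : ℝ)) (Q := fun t => p t ^ 2) continuous_const (by fun_prop)
  simp only [one_mul, one_pow, ← pow_mul] at h4
  rw [setIntegral_const, smul_eq_mul, mul_one] at h4
  simp only [← pow_mul] at h2 h3
  norm_num at h2 h3 h4
  have e1 : ∫ t in E, p t * q t * g t = ∫ t in E, q t * (p t * g t) := by
    congr 1
    ext t
    ring
  have e2 : ∫ t in E, (p t * g t) ^ 2 = ∫ t in E, p t ^ 2 * g t ^ 2 := by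
    congr 1
    ext t
    ring
  have e3 : ∫ t in E, p t * p t ^ 3 = ∫ t in E, p t ^ 4 := by
    congr 1
    ext t
    ring
  rw [e1]
  rw [e2] at h1
  rw [e3] at h3
  obtain ⟨a, ha⟩ : ∃ a : ℝ, a = ∫ t in E, q t ^ 2 := ⟨_, rfl⟩
  obtain ⟨b, hb⟩ : ∃ b : ℝ, b = ∫ t in E, p t ^ 2 * g t ^ 2 := ⟨_, rfl⟩
  obtain ⟨c, hc⟩ : ∃ c : ℝ, c = ∫ t in E, p t ^ 4 := ⟨_, rfl⟩
  obtain ⟨d, hd⟩ : ∃ d : ℝ, d = ∫ t in E, g t ^ 4 := ⟨_, rfl⟩
  obtain ⟨s, hs⟩ : ∃ s : ℝ, s = ∫ t in E, p t ^ 6 := ⟨_, rfl⟩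
  obtain ⟨w, hw⟩ : ∃ w : ℝ, w = ∫ t in E, p t ^ 2 := ⟨_, rfl⟩
  obtain ⟨x, hx⟩ : ∃ x : ℝ, x = ∫ t in E, q t * (p t * g t) := ⟨_, rfl⟩
  obtain ⟨m, hm⟩ : ∃ m : ℝ, m = volume.real E := ⟨_, rfl⟩
  rw [← ha, ← hb, ← hx] at h1
  rw [← hb, ← hc, ← hd] at h2
  rw [← hw, ← hs, ← hc] at h3
  rw [← hw, ← hc, ← hm] at h4
  rw [← ha, ← hd, ← hs, ← hx, ← hm]
  have ha0 : 0 ≤ a := by rw [ha]; exact integral_nonneg fun t => by positivity
  have hb0 : 0 ≤ b := by rw [hb]; exact integral_nonneg fun t => by positivity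
  have hc0 : 0 ≤ c := by rw [hc]; exact integral_nonneg fun t => by positivity
  have hd0 : 0 ≤ d := by rw [hd]; exact integral_nonneg fun t => by positivity
  have hs0 : 0 ≤ s := by rw [hs]; exact integral_nonneg fun t => by positivity
  have hw0 : 0 ≤ w := by rw [hw]; exact integral_nonneg fun t => by positivity
  have hm0 : 0 ≤ m := by rw [hm]; exact measureReal_nonneg
  -- `c ^ 2 ≤ w * s`, `w ^ 2 ≤ m * c`
  have hc3 : c ^ 3 ≤ s ^ 2 * m := by
    rcases hc0.eq_or_lt with h0 | h0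
    · rw [← h0, zero_pow three_ne_zero]
      positivity
    · have h5 : c ^ 4 ≤ s ^ 2 * m * c := by
        calc c ^ 4 = (c ^ 2) ^ 2 := by ring
          _ ≤ (w * s) ^ 2 := pow_le_pow_left₀ (sq_nonneg _) h3 2
          _ = s ^ 2 * w ^ 2 := by ring
          _ ≤ s ^ 2 * (m * c) := mul_le_mul_of_nonneg_left h4 (sq_nonneg _)
          _ = s ^ 2 * m * c := by ring
      have h6 : c ^ 3 * c ≤ (s ^ 2 * m) * c := by
        calc c ^ 3 * c = c ^ 4 := by ring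
          _ ≤ _ := h5
      exact le_of_mul_le_mul_right h6 h0
  calc x ^ 12 = (x ^ 2) ^ 6 := by ring
    _ ≤ (a * b) ^ 6 := pow_le_pow_left₀ (sq_nonneg _) h1 6
    _ = a ^ 6 * (b ^ 2) ^ 3 := by ring
    _ ≤ a ^ 6 * (c * d) ^ 3 := by
        refine mul_le_mul_of_nonneg_left (pow_le_pow_left₀ (sq_nonneg _) h2 3) (by positivity)
    _ = a ^ 6 * c ^ 3 * d ^ 3 := by ring
    _ ≤ a ^ 6 * (s ^ 2 * m) * d ^ 3 := by gcongr

/-- Hoelder with the sup norm of `p` -/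
lemma core4 {E : Set ℝ} {H K M : ℝ} (hE : E ⊆ Icc H K) {p q g : ℝ → ℝ}
    (hp : Continuous p) (hq : Continuous q) (hg : Continuous g) (hM0 : 0 ≤ M)
    (hM : ∀ t, p t ^ 2 ≤ M) :
    (∫ t in E, p t * q t * g t) ^ 4 ≤
      M ^ 2 * (∫ t in E, q t ^ 2) ^ 2 * (volume.real E * ∫ t in E, g t ^ 4) := by
  have h1 := cs hE (P := q) (Q := fun t => p t * g t) hq (by fun_prop)
  have h3 := cs hE (P := fun _ => (1 : ℝ)) (Q := fun t => g t ^ 2) continuous_const (by fun_prop)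
  simp only [one_mul, one_pow, ← pow_mul] at h3
  rw [setIntegral_const, smul_eq_mul, mul_one] at h3
  norm_num at h3
  have e1 : ∫ t in E, p t * q t * g t = ∫ t in E, q t * (p t * g t) := by
    congr 1
    ext t
    ring
  rw [e1]
  have h2 : ∫ t in E, (p t * g t) ^ 2 ≤ M * ∫ t in E, g t ^ 2 := by
    rw [← integral_const_mul]
    refine integral_mono (intOn hE (by fun_prop)) (intOn hE (by fun_prop)) fun t => ?_
    have : (p t * g t) ^ 2 = p t ^ 2 * g t ^ 2 := by ring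
    simp only
    rw [this]
    exact mul_le_mul_of_nonneg_right (hM t) (sq_nonneg _)
  have ha0 : 0 ≤ ∫ t in E, q t ^ 2 := integral_nonneg fun t => by positivity
  have hb0 : 0 ≤ ∫ t in E, (p t * g t) ^ 2 := integral_nonneg fun t => by positivity
  have hd0 : 0 ≤ ∫ t in E, g t ^ 2 := integral_nonneg fun t => by positivity
  calc (∫ t in E, q t * (p t * g t)) ^ 4 = ((∫ t in E, q t * (p t * g t)) ^ 2) ^ 2 := by ring
    _ ≤ ((∫ t in E, q t ^ 2) * ∫ t in E, (p t * g t) ^ 2) ^ 2 :=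
        pow_le_pow_left₀ (sq_nonneg _) h1 2
    _ ≤ ((∫ t in E, q t ^ 2) * (M * ∫ t in E, g t ^ 2)) ^ 2 := by gcongr
    _ = M ^ 2 * (∫ t in E, q t ^ 2) ^ 2 * (∫ t in E, g t ^ 2) ^ 2 := by ring
    _ ≤ M ^ 2 * (∫ t in E, q t ^ 2) ^ 2 * (volume.real E * ∫ t in E, g t ^ 4) :=
        mul_le_mul_of_nonneg_left h3 (by positivity)

/-- the sizes of the two classes -/
lemma sizesL {ι : Type} [Fintype ι] {f : ι → Fac} {r D T : ℝ}
    (P : ι → Prop) [DecidablePred P] (hP : ∀ l, P l → (f l).r = r)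
    (hP' : ∀ l, ¬P l → (f l).r = 1) {j : ι → ℕ} (hj : j ∈ mains f 1 D T) :
    r * Real.log (SZ (fun l : {l // P l} => j l)) +
      Real.log (SZ (fun l : {l // ¬P l} => j l)) ≤ D * Real.log T := by
  classical
  have h1 : ∑ l, (j l : ℝ) * (f l).r * Real.log 2 ≤ D * Real.log T := by
    unfold mains at hj
    exact (Finset.mem_filter.1 hj).2
  have hlogS : ∀ (κ : Type) [Fintype κ] (i : κ → ℕ),
      Real.log (SZ i) = ∑ l, (i l : ℝ) * Real.log 2 := by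
    intro κ _ i
    rw [SZ_cast, Real.log_prod fun l _ => by positivity]
    refine Finset.sum_congr rfl fun l _ => ?_
    rw [Real.log_pow]
  rw [hlogS, hlogS]
  rw [← Fintype.sum_subtype_add_sum_subtype P (fun l => (j l : ℝ) * (f l).r * Real.log 2)] at h1
  have h2 : ∑ l : {l // P l}, (j l : ℝ) * (f l).r * Real.log 2 =
      r * ∑ l : {l // P l}, (j l : ℝ) * Real.log 2 := by
    rw [Finset.mul_sum]
    refine Finset.sum_congr rfl fun l _ => ?_
    rw [hP l l.2]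
    ring
  have h3 : ∑ l : {l // ¬P l}, (j l : ℝ) * (f l).r * Real.log 2 =
      ∑ l : {l // ¬P l}, (j l : ℝ) * Real.log 2 := by
    refine Finset.sum_congr rfl fun l _ => ?_
    rw [hP' l l.2]
    ring
  rw [h2, h3] at h1
  exact h1

/-- the numerical step -/
lemma numeric {X B m C T ε ρ₀ D K : ℝ} (hX : 0 ≤ X) (hT : 1 ≤ T) (hε : 0 < ε) (hC : 1 ≤ C)
    (hB : B = 2 * C * T ^ (1 + ε / 44)) (hm0 : 0 ≤ m) (hm : m ≤ T ^ (ρ₀ - ε)) (hρ : ρ₀ ≤ 1)
    (hρD : ρ₀ ≤ 3 - 2 * D) (hK0 : 0 ≤ K) (hK : K ≤ T ^ D)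
    (hTb : (2 * C) ^ 11 ≤ T ^ (ε / 4)) (h : X ^ 12 ≤ B ^ 11 * m ∨ X ^ 4 ≤ B ^ 3 * m ∨
      X ^ 4 ≤ (2 * C * T ^ (3 * (ε / 44) / 2) * K) ^ 2 * (m * B)) :
    X ≤ T ^ (1 - ε / 24) := by
  have hT0 : 0 < T := by linarith
  have hB0 : 0 < B := by rw [hB]; positivity
  have h2C : 1 ≤ 2 * C := by linarith
  have hm1 : m ≤ T ^ (1 - ε) :=
    hm.trans (Real.rpow_le_rpow_of_exponent_le hT (by linarith))
  have hgoal12 : (T ^ (1 - ε / 24)) ^ 12 = T ^ (12 - ε / 2) := by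
    rw [← Real.rpow_natCast (T ^ (1 - ε / 24)) 12, ← Real.rpow_mul hT0.le]
    congr 1
    push_cast
    ring
  have hgoal4 : (T ^ (1 - ε / 24)) ^ 4 = T ^ (4 - ε / 6) := by
    rw [← Real.rpow_natCast (T ^ (1 - ε / 24)) 4, ← Real.rpow_mul hT0.le]
    congr 1
    push_cast
    ring
  have hB11 : B ^ 11 ≤ T ^ (11 + ε / 2) := by
    rw [hB, mul_pow]
    calc (2 * C) ^ 11 * (T ^ (1 + ε / 44)) ^ 11 ≤ T ^ (ε / 4) * (T ^ (1 + ε / 44)) ^ 11 := by
          gcongr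
      _ = T ^ (11 + ε / 2) := by
          rw [← Real.rpow_natCast (T ^ (1 + ε / 44)) 11, ← Real.rpow_mul hT0.le,
            ← Real.rpow_add hT0]
          congr 1
          push_cast
          ring
  have h23 : (2 * C) ^ 3 ≤ T ^ (ε / 4) :=
    (pow_le_pow_right₀ h2C (by norm_num)).trans hTb
  have hB3 : B ^ 3 ≤ T ^ (3 + ε / 2) := by
    rw [hB, mul_pow]
    calc (2 * C) ^ 3 * (T ^ (1 + ε / 44)) ^ 3 ≤ T ^ (ε / 4) * (T ^ (1 + ε / 44)) ^ 3 := by
          gcongr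
      _ = T ^ (ε / 4 + (1 + ε / 44) * 3) := by
          rw [← Real.rpow_natCast (T ^ (1 + ε / 44)) 3, ← Real.rpow_mul hT0.le,
            ← Real.rpow_add hT0]
          congr 1
      _ ≤ T ^ (3 + ε / 2) := by
          refine Real.rpow_le_rpow_of_exponent_le hT ?_
          linarith
  rcases h with h | h | h
  · refine le_of_pow_le_pow_left₀ (n := 12) (by norm_num) (by positivity) ?_
    rw [hgoal12]
    calc X ^ 12 ≤ B ^ 11 * m := h
      _ ≤ T ^ (11 + ε / 2) * T ^ (1 - ε) := mul_le_mul hB11 hm1 hm0 (by positivity)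
      _ = T ^ (12 - ε / 2) := by
          rw [← Real.rpow_add hT0]
          congr 1
          ring
  · refine le_of_pow_le_pow_left₀ (n := 4) (by norm_num) (by positivity) ?_
    rw [hgoal4]
    calc X ^ 4 ≤ B ^ 3 * m := h
      _ ≤ T ^ (3 + ε / 2) * T ^ (1 - ε) := mul_le_mul hB3 hm1 hm0 (by positivity)
      _ = T ^ (4 - ε / 2) := by
          rw [← Real.rpow_add hT0]
          congr 1
          ring
      _ ≤ T ^ (4 - ε / 6) := by
          refine Real.rpow_le_rpow_of_exponent_le hT ?_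
          linarith
  · refine le_of_pow_le_pow_left₀ (n := 4) (by norm_num) (by positivity) ?_
    rw [hgoal4]
    have h1 : (T ^ (3 * (ε / 44) / 2)) ^ 2 = T ^ (3 * (ε / 44)) := by
      rw [← Real.rpow_natCast (T ^ (3 * (ε / 44) / 2)) 2, ← Real.rpow_mul hT0.le]
      congr 1
      push_cast
      ring
    have h2 : K ^ 2 ≤ T ^ (2 * D) := by
      calc K ^ 2 ≤ (T ^ D) ^ 2 := pow_le_pow_left₀ hK0 hK 2
        _ = T ^ (2 * D) := by
            rw [← Real.rpow_natCast (T ^ D) 2, ← Real.rpow_mul hT0.le]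
            congr 1
            push_cast
            ring
    calc X ^ 4 ≤ (2 * C * T ^ (3 * (ε / 44) / 2) * K) ^ 2 * (m * B) := h
      _ = (2 * C) ^ 3 * (T ^ (3 * (ε / 44) / 2)) ^ 2 * K ^ 2 * m * T ^ (1 + ε / 44) := by
          rw [hB]
          ring
      _ ≤ T ^ (ε / 4) * T ^ (3 * (ε / 44)) * T ^ (2 * D) * T ^ (ρ₀ - ε) * T ^ (1 + ε / 44) := by
          rw [h1]
          gcongr
      _ = T ^ (ε / 4 + 3 * (ε / 44) + 2 * D + (ρ₀ - ε) + (1 + ε / 44)) := by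
          rw [← Real.rpow_add hT0, ← Real.rpow_add hT0, ← Real.rpow_add hT0, ← Real.rpow_add hT0]
      _ ≤ T ^ (4 - ε / 6) := by
          refine Real.rpow_le_rpow_of_exponent_le hT ?_
          linarith

theorem pf_BER (h1 : T_MP) (h2 : T_MV) : T_BER := by
  intro ι _ f r D ω ρ₀ ε hr hf hD0 hD1 hDr hDr2 hω0 hω1 hρ0 hρ1 hρ2 hε
  classical
  have he : 0 < ε / 44 := by positivity
  have hr0 : 0 < r := by linarith
  obtain ⟨P, hPdef⟩ : ∃ P : ι → Prop, P = fun l => (f l).r = r := ⟨_, rfl⟩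
  have hPa : ∀ l, P l → (f l).r = r := by
    intro l hl
    rw [hPdef] at hl
    exact hl
  have hPb : ∀ l, ¬P l → (f l).r = 1 := by
    intro l hl
    rw [hPdef] at hl
    exact (hf l).resolve_left hl
  obtain ⟨C₁, hC₁, m₁⟩ := h1 {l // ¬P l} (fun l => f l) 1 _ 1 (fun l => hPb l l.2) one_pos he
  obtain ⟨C₂, hC₂, m₂⟩ := h1 {l // ¬P l} (fun l => f l) 1 _ 2 (fun l => hPb l l.2) one_pos he
  obtain ⟨C₃, hC₃, m₃⟩ := h1 {l // P l} (fun l => f l) r _ 2 (fun l => hPa l l.2)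
    (by linarith) he
  obtain ⟨C₄, hC₄, m₄⟩ := h1 {l // P l} (fun l => f l) r _ 3 (fun l => hPa l l.2)
    (by linarith) he
  obtain ⟨C₅, hC₅, m₅⟩ := tp4 h2 he
  obtain ⟨C, hC⟩ : ∃ C : ℝ, C = C₁ + C₂ + C₃ + C₄ + C₅ + 1 := ⟨_, rfl⟩
  have hC1 : 1 ≤ C := by rw [hC]; linarith
  have hCC : C₁ ≤ C ∧ C₂ ≤ C ∧ C₃ ≤ C ∧ C₄ ≤ C ∧ C₅ ≤ C := by
    rw [hC]
    refine ⟨?_, ?_, ?_, ?_, ?_⟩ <;> linarith
  obtain ⟨T₂, hT₂⟩ : ∃ T₂ : ℝ, ∀ T : ℝ, T₂ ≤ T → (2 * C) ^ 11 ≤ T ^ (ε / 4) := by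
    have h1 := (tendsto_rpow_atTop (show 0 < ε / 4 by positivity)).eventually_ge_atTop
      ((2 * C) ^ 11)
    rw [Filter.eventually_atTop] at h1
    exact h1
  refine ⟨ε / 24, max T₂ 1, by positivity, fun T hT j hj X ρ y hXT hρ _ E hEm hEs hvE => ?_⟩
  have hTT₂ : T₂ ≤ T := (le_max_left _ _).trans hT
  have hT1 : 1 ≤ T := (le_max_right _ _).trans hT
  have hT0 : 0 < T := by linarith
  have hlT : 0 ≤ Real.log T := Real.log_nonneg hT1
  rcases Nat.eq_zero_or_pos X with hX | hX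
  · subst hX
    have : ∀ u : ℝ, TQ r 0 ρ u = 0 := by intro u; simp [TQ]
    simp only [this, norm_zero, mul_zero, integral_zero]
    positivity
  have hX1 : 1 ≤ X := hX
  have hX1' : (1 : ℝ) ≤ X := by exact_mod_cast hX1
  obtain ⟨j₁, hj₁⟩ : ∃ j₁ : {l // P l} → ℕ, j₁ = fun l : {l // P l} => j l := ⟨_, rfl⟩
  obtain ⟨j₂, hj₂⟩ : ∃ j₂ : {l // ¬P l} → ℕ, j₂ = fun l : {l // ¬P l} => j l := ⟨_, rfl⟩
  have hMK : r * Real.log (SZ j₁) + Real.log (SZ j₂) ≤ D * Real.log T := by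
    rw [hj₁, hj₂]
    exact sizesL P hPa hPb hj
  have hM1 : (1 : ℝ) ≤ SZ j₁ := by exact_mod_cast SZ_pos j₁
  have hK1 : (1 : ℝ) ≤ SZ j₂ := by exact_mod_cast SZ_pos j₂
  have hM0 : (0 : ℝ) < SZ j₁ := by linarith
  have hK0 : (0 : ℝ) < SZ j₂ := by linarith
  have hlM : 0 ≤ Real.log (SZ j₁) := Real.log_nonneg hM1
  have hlK : 0 ≤ Real.log (SZ j₂) := Real.log_nonneg hK1
  have hM2 : (SZ j₁ : ℝ) ^ 2 ≤ T := by
    rw [← Real.log_le_log_iff (by positivity) hT0, Real.log_pow]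
    push_cast
    have h3 : r * (2 * Real.log (SZ j₁)) ≤ r * Real.log T := by nlinarith
    exact le_of_mul_le_mul_left h3 hr0
  have hMT : (SZ j₁ : ℝ) ≤ T := by nlinarith
  have hMKD : (SZ j₁ : ℝ) * SZ j₂ ≤ T ^ D := by
    rw [← Real.log_le_log_iff (by positivity) (by positivity), Real.log_mul hM0.ne' hK0.ne',
      Real.log_rpow hT0]
    nlinarith
  have hK32 : (SZ j₂ : ℝ) ≤ T ^ (3 / 2 : ℝ) := by
    rw [← Real.log_le_log_iff (by positivity) (by positivity), Real.log_rpow hT0]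
    nlinarith
  have hX2 : (X : ℝ) ^ 2 ≤ T := by
    calc (X : ℝ) ^ 2 ≤ (T ^ ω) ^ 2 := by gcongr
      _ = T ^ (ω * 2) := by
          rw [← Real.rpow_natCast (T ^ ω) 2, ← Real.rpow_mul hT0.le]
          norm_num
      _ ≤ T ^ (1 : ℝ) := Real.rpow_le_rpow_of_exponent_le hT1 (by linarith)
      _ = T := Real.rpow_one T
  have hXT1 : (X : ℝ) ≤ T := by nlinarith
  -- the functions
  obtain ⟨p, hp⟩ : ∃ p : ℝ → ℝ, p = fun t : ℝ => ‖Pj (fun l : {l // P l} => f l) j₁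
    (1 / 2 + t * I)‖ := ⟨_, rfl⟩
  obtain ⟨q, hq⟩ : ∃ q : ℝ → ℝ, q = fun t : ℝ => ‖Pj (fun l : {l // ¬P l} => f l) j₂
    (1 / 2 + t * I)‖ := ⟨_, rfl⟩
  obtain ⟨g, hg⟩ : ∃ g : ℝ → ℝ, g = fun t : ℝ => ‖TP X ρ (r * t)‖ := ⟨_, rfl⟩
  have hpc : Continuous p := by
    rw [hp]
    unfold Pj
    exact (continuous_finsetProd _ fun (l : {l // P l}) _ => B_continuous (f l) (j₁ l)).norm
  have hqc : Continuous q := by
    rw [hq]
    unfold Pj
    exact (continuous_finsetProd _ fun (l : {l // ¬P l}) _ => B_continuous (f l) (j₂ l)).norm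
  have hTPc : Continuous (TP X ρ) := RDX.continuous_TP X ρ
  have hgc : Continuous g := by
    rw [hg]
    exact (hTPc.comp (by fun_prop : Continuous fun t : ℝ => r * t)).norm
  have hpq : ∀ t : ℝ, ‖Pj f j (1 / 2 + (t + y : ℝ) * I)‖ * ‖TQ r X ρ t‖ =
      p (t + y) * q (t + y) * g t := by
    intro t
    rw [Pj_split f P j, norm_mul, hp, hq, hg, hj₁, hj₂, TQ_eq]
  simp_rw [hpq]
  have hpyc : Continuous fun t => p (t + y) := hpc.comp (by fun_prop)
  have hqyc : Continuous fun t => q (t + y) := hqc.comp (by fun_prop)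
  have hp0 : ∀ t, 0 ≤ p t := fun t => by rw [hp]; exact norm_nonneg _
  have hq0 : ∀ t, 0 ≤ q t := fun t => by rw [hq]; exact norm_nonneg _
  have hg0 : ∀ t, 0 ≤ g t := fun t => by rw [hg]; exact norm_nonneg _
  have hX0 : 0 ≤ ∫ t in E, p (t + y) * q (t + y) * g t := by
    refine integral_nonneg fun t => ?_
    have := hp0 (t + y)
    have := hq0 (t + y)
    have := hg0 t
    positivity
  have hEs' : E ⊆ Icc T (T + T) := by rwa [← two_mul]
  have hvol : volume E ≠ ⊤ := ne_top_of_le_ne_top (by simp) (measure_mono hEs)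
  -- the moments
  have shift : ∀ (h : ℝ → ℝ), ∫ t in T..(T + T), h (t + y) =
      ∫ t in (T + y)..(T + y + T), h t := by
    intro h
    rw [intervalIntegral.integral_comp_add_right]
    congr 1
    ring
  have a₁' : ∫ t in E, q (t + y) ^ 2 ≤ C₁ * (SZ j₂ : ℝ) ^ (ε / 44) * (T + SZ j₂) := by
    refine (set_le hT0.le hEs' (P := fun t => q (t + y) ^ 2) (by fun_prop)
      fun t => by positivity).trans ?_
    rw [shift (fun t => q t ^ 2)]
    have := m₁ j₂ (T + y) T hT1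
    rw [hq]
    simp only [mul_one, pow_one] at this ⊢
    exact this
  have a₂ : (SZ j₂ : ℝ) ≤ T → (SZ j₂ : ℝ) ^ 2 ≤ T →
      ∫ t in E, q (t + y) ^ 4 ≤ 2 * C * T ^ (1 + ε / 44) := by
    intro hKT hK2
    refine (set_le hT0.le hEs' (P := fun t => q (t + y) ^ 4) (by fun_prop)
      fun t => by positivity).trans ?_
    rw [shift (fun t => q t ^ 4)]
    have := m₂ j₂ (T + y) T hT1
    rw [hq]
    exact this.trans (bnd hC₂.le hCC.2.1 (by linarith) hKT he.le hT1 hK2)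
  have a₃ : ∫ t in E, p (t + y) ^ 4 ≤ 2 * C * T ^ (1 + ε / 44) := by
    refine (set_le hT0.le hEs' (P := fun t => p (t + y) ^ 4) (by fun_prop)
      fun t => by positivity).trans ?_
    rw [shift (fun t => p t ^ 4)]
    have := m₃ j₁ (T + y) T hT1
    rw [hp]
    exact this.trans (bnd hC₃.le hCC.2.2.1 (by linarith) hMT he.le hT1 hM2)
  have a₄ : (SZ j₁ : ℝ) ^ 3 ≤ T → ∫ t in E, p (t + y) ^ 6 ≤ 2 * C * T ^ (1 + ε / 44) := by
    intro hM4
    refine (set_le hT0.le hEs' (P := fun t => p (t + y) ^ 6) (by fun_prop)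
      fun t => by positivity).trans ?_
    rw [shift (fun t => p t ^ 6)]
    have := m₄ j₁ (T + y) T hT1
    rw [hp]
    exact this.trans (bnd hC₄.le hCC.2.2.2.1 (by linarith) hMT he.le hT1 hM4)
  have a₅ : ∫ t in E, g t ^ 4 ≤ 2 * C * T ^ (1 + ε / 44) := by
    refine (set_le hT0.le hEs' (P := fun t => g t ^ 4) (by fun_prop)
      fun t => by positivity).trans ?_
    have h3 := m₅ X ρ hX1 hρ (r * T) (r * T) (by nlinarith)
    have h4 : ∫ t in T..(T + T), g t ^ 4 = r⁻¹ * ∫ t in (r * T)..(r * T + r * T),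
        ‖TP X ρ t‖ ^ 4 := by
      rw [hg]
      have h5 := intervalIntegral.integral_comp_mul_left (a := T) (b := T + T)
        (fun t => ‖TP X ρ t‖ ^ 4) hr0.ne'
      rw [smul_eq_mul] at h5
      rw [h5, mul_add]
    have h5 : 0 ≤ ∫ t in (r * T)..(r * T + r * T), ‖TP X ρ t‖ ^ 4 :=
      intervalIntegral.integral_nonneg (by nlinarith) fun t _ => by positivity
    have h6 : r⁻¹ * (C₅ * (X : ℝ) ^ (ε / 44) * (r * T + (X : ℝ) ^ 2)) ≤
        C₅ * (X : ℝ) ^ (ε / 44) * (T + (X : ℝ) ^ 2) := by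
      have h7 : r⁻¹ ≤ 1 := inv_le_one_of_one_le₀ hr.le
      have h8 : r⁻¹ * (C₅ * (X : ℝ) ^ (ε / 44) * (r * T + (X : ℝ) ^ 2)) =
          C₅ * (X : ℝ) ^ (ε / 44) * (T + r⁻¹ * (X : ℝ) ^ 2) := by
        field_simp
      rw [h8]
      have h9 : r⁻¹ * (X : ℝ) ^ 2 ≤ (X : ℝ) ^ 2 := by nlinarith [sq_nonneg (X : ℝ)]
      gcongr
    rw [h4]
    exact ((mul_le_mul_of_nonneg_left h3 (inv_nonneg.2 hr0.le)).trans h6).trans
      (bnd hC₅.le hCC.2.2.2.2 (by linarith) hXT1 he.le hT1 hX2)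
  obtain ⟨B, hB⟩ : ∃ B : ℝ, B = 2 * C * T ^ (1 + ε / 44) := ⟨_, rfl⟩
  rw [← hB] at a₃ a₅
  rw [← hB] at a₂ a₄
  have hB0 : 0 ≤ B := by rw [hB]; positivity
  have hm0 : 0 ≤ volume.real E := measureReal_nonneg
  refine numeric (K := (SZ j₁ : ℝ) * SZ j₂) hX0 hT1 hε hC1 hB hm0 hvE hρ1 hρ2 (by positivity)
    hMKD (hT₂ T hTT₂) ?_
  have n₁ : 0 ≤ ∫ t in E, q (t + y) ^ 2 := integral_nonneg fun t => by positivity
  have n₂ : 0 ≤ ∫ t in E, q (t + y) ^ 4 := integral_nonneg fun t => by positivity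
  have n₃ : 0 ≤ ∫ t in E, p (t + y) ^ 4 := integral_nonneg fun t => by positivity
  have n₄ : 0 ≤ ∫ t in E, p (t + y) ^ 6 := integral_nonneg fun t => by positivity
  have n₅ : 0 ≤ ∫ t in E, g t ^ 4 := integral_nonneg fun t => by positivity
  rcases le_or_gt T (SZ j₂ : ℝ) with hKT | hKT
  · right
    right
    have hc := core4 hEs hpyc hqyc hgc (M := (SZ j₁ : ℝ)) hM0.le (fun t => by
      rw [hp]
      exact sup_bound _ j₁ (t + y))
    refine hc.trans ?_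
    have h3 : ∫ t in E, q (t + y) ^ 2 ≤ 2 * C * T ^ (3 * (ε / 44) / 2) * SZ j₂ := by
      refine a₁'.trans ?_
      have h4 : (SZ j₂ : ℝ) ^ (ε / 44) ≤ T ^ (3 * (ε / 44) / 2) := by
        calc (SZ j₂ : ℝ) ^ (ε / 44) ≤ (T ^ (3 / 2 : ℝ)) ^ (ε / 44) :=
              Real.rpow_le_rpow hK0.le hK32 he.le
          _ = T ^ (3 * (ε / 44) / 2) := by
              rw [← Real.rpow_mul hT0.le]
              congr 1
              ring
      calc C₁ * (SZ j₂ : ℝ) ^ (ε / 44) * (T + SZ j₂) ≤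
            C * T ^ (3 * (ε / 44) / 2) * (SZ j₂ + SZ j₂) := by
            have := hCC.1
            gcongr
        _ = 2 * C * T ^ (3 * (ε / 44) / 2) * SZ j₂ := by ring
    calc (SZ j₁ : ℝ) ^ 2 * (∫ t in E, q (t + y) ^ 2) ^ 2 *
          (volume.real E * ∫ t in E, g t ^ 4) ≤
        (SZ j₁ : ℝ) ^ 2 * (2 * C * T ^ (3 * (ε / 44) / 2) * SZ j₂) ^ 2 *
          (volume.real E * B) := by gcongr
      _ = (2 * C * T ^ (3 * (ε / 44) / 2) * (SZ j₁ * SZ j₂)) ^ 2 * (volume.real E * B) := by ring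
  · have a₁ : ∫ t in E, q (t + y) ^ 2 ≤ B := by
      rw [hB]
      exact a₁'.trans (bnd hC₁.le hCC.1 (by linarith) hKT.le he.le hT1 hKT.le)
    rcases le_or_gt ((SZ j₂ : ℝ) ^ 2) T with hK2 | hK2
    · right
      left
      have hc := core2 hEs hvol hpyc hqyc hgc
      refine hc.trans ?_
      calc volume.real E * (∫ t in E, p (t + y) ^ 4) *
          ((∫ t in E, q (t + y) ^ 4) * ∫ t in E, g t ^ 4) ≤ volume.real E * B * (B * B) := by
            have := a₂ hKT.le hK2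
            gcongr
        _ = B ^ 3 * volume.real E := by ring
    · left
      have hM3 : (SZ j₁ : ℝ) ^ 3 ≤ T := by
        rw [← Real.log_le_log_iff (by positivity) hT0, Real.log_pow]
        push_cast
        have h3 : Real.log T ≤ 2 * Real.log (SZ j₂) := by
          have h4 := Real.log_le_log hT0 hK2.le
          rw [Real.log_pow] at h4
          push_cast at h4
          exact h4
        have h5 : r * (3 * Real.log (SZ j₁)) ≤ r * Real.log T := by nlinarith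
        exact le_of_mul_le_mul_left h5 hr0
      have hc := core3 hEs hpyc hqyc hgc
      refine hc.trans ?_
      calc (∫ t in E, q (t + y) ^ 2) ^ 6 * ((∫ t in E, p (t + y) ^ 6) ^ 2 * volume.real E) *
          (∫ t in E, g t ^ 4) ^ 3 ≤ B ^ 6 * (B ^ 2 * volume.real E) * B ^ 3 := by
            have := a₄ hM3
            gcongr
        _ = B ^ 11 * volume.real E := by ring

end Pool.Agent.H17.EX.BER
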