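import Mathlib

/-!
Row CON (EQP = EXPH, MP_0f8dca_lc): the law of the consistent contents. The blocks are replaced by
uniform blocks in the order of decreasing scale.
-/

set_option autoImplicit false
set_option linter.unusedSectionVars false

namespace Pool.Agent.H17.EX

open Finset Function

section defs

variable {I : Type} {T : I → Type}

open Classical in
/-- The answers on `S` are those of `κ`. -/
noncomputable def evC (f : (∀ j, T j) → I → Bool) (S : Finset I) (κ : I → Bool)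
    (P : ∀ j, T j) : ℝ := if ∀ i ∈ S, f P i = κ i then 1 else 0

open Classical in
/-- The weight of the contents `P`: the blocks in `D` say the actual answers, the others are uniform. -/
noncomputable def wC [Fintype I] (m : Bool → ∀ j, T j → ℝ) (m0 : ∀ j, T j → ℝ)
    (f : (∀ j, T j) → I → Bool) (D : Finset I) (P : ∀ j, T j) : ℝ :=
  ∏ i, if i ∈ D then m (f P i) i (P i) else m0 i (P i)

end defs

/-- CON: the law of the consistent contents. -/
def T_CON : Prop := ∀ (I : Type) [Fintype I] [DecidableEq I] (T : I → Type) [∀ j, Fintype (T j)]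
  [∀ j, DecidableEq (T j)] (m : Bool → ∀ j, T j → ℝ) (m0 : ∀ j, T j → ℝ)
  (f : (∀ j, T j) → I → Bool) (sc : I → ℕ) (ε τ : I → ℝ),
  (∀ b j p, 0 ≤ m b j p) → (∀ b j, ∑ p, m b j p ≤ 1) → (∀ j p, 0 ≤ m0 j p) →
  (∀ j, ∑ p, m0 j p = 1) → (∀ j, 0 ≤ ε j) → (∀ j, 0 ≤ τ j) →
  (∀ (j : I) (S : Finset I) (κ : I → Bool) (P : ∀ j, T j), j ∈ S → (∀ i ∈ S, sc i ≤ sc j) →
    |∑ p, m (κ j) j p * evC f S κ (update P j p) - ∑ p, m0 j p * evC f S κ (update P j p)| ≤
      ε j * ∑ p, m0 j p * evC f S κ (update P j p) + τ j) →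
  ∑ j, (ε j + 2 ^ (univ.filter fun i => sc i ≤ sc j).card * τ j) ≤ 1 / 8 →
  |∑ P, wC m m0 f univ P - 1| ≤ 1 / 4 ∧
  ∀ (F : (∀ j, T j) → ℝ) (s : ℕ),
    (∀ (j : I) (S : Finset I) (κ : I → Bool) (P : ∀ j, T j), s ≤ sc j → j ∈ S →
      (∀ i ∈ S, sc i ≤ sc j) →
      |∑ p, m (κ j) j p * (F (update P j p) * evC f S κ (update P j p)) -
        ∑ p, m0 j p * (F (update P j p) * evC f S κ (update P j p))| ≤
        ε j * ∑ p, m0 j p * evC f S κ (update P j p) + τ j) →
    |∑ P, wC m m0 f univ P * F P - ∑ P, wC m m0 f (univ.filter fun i => sc i < s) P * F P| ≤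
      2 * ∑ j ∈ univ.filter fun j => s ≤ sc j,
        (ε j + 2 ^ (univ.filter fun i => sc i ≤ sc j).card * τ j)

section

variable {I : Type} [Fintype I] [DecidableEq I] {T : I → Type} [∀ j, Fintype (T j)]
  [∀ j, DecidableEq (T j)]

/-- Resampling one coordinate. -/
theorem resampleD (j : I) (μ : T j → ℝ) (hμ : ∑ p, μ p = 1) (g : (∀ i, T i) → ℝ) :
    ∑ P, g P = ∑ P : ∀ i, T i, μ (P j) * ∑ p, g (update P j p) := by
  have h1 : ∑ P : ∀ i, T i, μ (P j) * ∑ p, g (update P j p) =
      ∑ x : (∀ i, T i) × T j, μ (x.1 j) * g (update x.1 j x.2) := by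
    rw [Fintype.sum_prod_type]
    exact sum_congr rfl fun P _ => mul_sum _ _ _
  have h2 : ∑ x : (∀ i, T i) × T j, μ (x.1 j) * g (update x.1 j x.2) =
      ∑ x : (∀ i, T i) × T j, μ x.2 * g x.1 := by
    refine sum_bij' (fun x _ => (update x.1 j x.2, x.1 j))
      (fun x _ => (update x.1 j x.2, x.1 j)) ?_ ?_ ?_ ?_ ?_
    all_goals simp
  rw [h1, h2, Fintype.sum_prod_type]
  refine sum_congr rfl fun P _ => ?_
  change g P = ∑ y, μ y * g P
  rw [← sum_mul, hμ, one_mul]

/-- the answers which are given by the set `A` -/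
def kA (A : Finset I) (i : I) : Bool := decide (i ∈ A)

/-- exactly one set gives the answers -/
theorem sum_ev (f : (∀ j, T j) → I → Bool) (D : Finset I) (P : ∀ j, T j)
    (g : Finset I → ℝ) :
    ∑ A ∈ D.powerset, evC f D (kA A) P * g A = g (D.filter fun i => f P i = true) := by
  rw [sum_eq_single (D.filter fun i => f P i = true)]
  · unfold evC
    rw [if_pos, one_mul]
    intro i hi
    unfold kA
    by_cases h : f P i = true
    · rw [h]
      symm
      simp [hi, h]
    · have h' : f P i = false := by simpa using h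
      rw [h']
      symm
      simp [h']
  · intro A hA hne
    unfold evC
    rw [if_neg, zero_mul]
    intro h
    apply hne
    ext i
    rw [mem_filter]
    constructor
    · intro hi
      have h1 := (mem_powerset.1 hA) hi
      refine ⟨h1, ?_⟩
      rw [h i h1]
      unfold kA
      simp [hi]
    · rintro ⟨h1, h2⟩
      have h3 := h i h1
      rw [h2] at h3
      unfold kA at h3
      simpa using h3.symm
  · intro h
    exact absurd (mem_powerset.2 (filter_subset _ _)) h

/-- the weight for given answers -/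
noncomputable def wA (m : Bool → ∀ j, T j → ℝ) (m0 : ∀ j, T j → ℝ) (D A : Finset I)
    (i : I) (p : T i) : ℝ := if i ∈ D then m (kA A i) i p else m0 i p

theorem wC_eq (m : Bool → ∀ j, T j → ℝ) (m0 : ∀ j, T j → ℝ) (f : (∀ j, T j) → I → Bool)
    (D : Finset I) (P : ∀ j, T j) (A : Finset I) (h : ∀ i ∈ D, f P i = kA A i) :
    wC m m0 f D P = ∏ i, wA m m0 D A i (P i) := by
  unfold wC wA
  refine prod_congr rfl fun i _ => ?_
  by_cases hi : i ∈ D
  · rw [if_pos hi, if_pos hi, h i hi]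
  · rw [if_neg hi, if_neg hi]

theorem wC_sum (m : Bool → ∀ j, T j → ℝ) (m0 : ∀ j, T j → ℝ) (f : (∀ j, T j) → I → Bool)
    (D D' : Finset I) (hD : D' ⊆ D) (F : (∀ j, T j) → ℝ) :
    ∑ P, wC m m0 f D' P * F P =
      ∑ A ∈ D.powerset, ∑ P, (∏ i, wA m m0 D' A i (P i)) * (F P * evC f D (kA A) P) := by
  rw [sum_comm]
  refine sum_congr rfl fun P _ => ?_
  have h1 : ∀ A ∈ D.powerset, (∏ i, wA m m0 D' A i (P i)) * (F P * evC f D (kA A) P) =
      evC f D (kA A) P * ((∏ i, wA m m0 D' A i (P i)) * F P) := fun A _ => by ring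
  rw [sum_congr rfl h1, sum_ev f D P]
  rw [wC_eq m m0 f D' P (D.filter fun i => f P i = true)]
  intro i hi
  unfold kA
  by_cases h : f P i = true
  · rw [h]
    symm
    simp [hD hi, h]
  · have h' : f P i = false := by simpa using h
    rw [h']
    symm
    simp [h']

theorem wA_split (m : Bool → ∀ j, T j → ℝ) (m0 : ∀ j, T j → ℝ) (D A : Finset I) (j : I)
    (hj : j ∈ D) (P : ∀ i, T i) :
    ∏ i, wA m m0 D A i (P i) = m (kA A j) j (P j) * ∏ i ∈ univ.erase j, wA m m0 D A i (P i) := by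
  rw [← mul_prod_erase univ (fun i => wA m m0 D A i (P i)) (mem_univ j)]
  congr 1
  unfold wA
  rw [if_pos hj]

theorem wA_split' (m : Bool → ∀ j, T j → ℝ) (m0 : ∀ j, T j → ℝ) (D A : Finset I) (j : I)
    (P : ∀ i, T i) :
    ∏ i, wA m m0 (D.erase j) A i (P i) = m0 j (P j) * ∏ i ∈ univ.erase j, wA m m0 D A i (P i) := by
  rw [← mul_prod_erase univ (fun i => wA m m0 (D.erase j) A i (P i)) (mem_univ j)]
  have h1 : wA m m0 (D.erase j) A j (P j) = m0 j (P j) := by
    unfold wA
    rw [if_neg (notMem_erase j D)]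
  rw [h1]
  congr 1
  refine prod_congr rfl fun i hi => ?_
  have hne := ne_of_mem_erase hi
  unfold wA
  by_cases h : i ∈ D
  · rw [if_pos h, if_pos (mem_erase.2 ⟨hne, h⟩)]
  · rw [if_neg h, if_neg (fun h' => h (mem_of_mem_erase h'))]

theorem rest_update (m : Bool → ∀ j, T j → ℝ) (m0 : ∀ j, T j → ℝ) (D A : Finset I) (j : I)
    (P : ∀ i, T i) (p : T j) :
    ∏ i ∈ univ.erase j, wA m m0 D A i (update P j p i) =
      ∏ i ∈ univ.erase j, wA m m0 D A i (P i) := by
  refine prod_congr rfl fun i hi => ?_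
  rw [update_of_ne (ne_of_mem_erase hi)]

theorem wA_nn (m : Bool → ∀ j, T j → ℝ) (m0 : ∀ j, T j → ℝ) (hm : ∀ b j p, 0 ≤ m b j p)
    (hm0 : ∀ j p, 0 ≤ m0 j p) (D A : Finset I) (i : I) (p : T i) : 0 ≤ wA m m0 D A i p := by
  unfold wA
  split_ifs
  · exact hm _ _ _
  · exact hm0 _ _

theorem mass_le (m : Bool → ∀ j, T j → ℝ) (m0 : ∀ j, T j → ℝ) (hm : ∀ b j p, 0 ≤ m b j p)
    (hm1 : ∀ b j, ∑ p, m b j p ≤ 1) (hm0 : ∀ j p, 0 ≤ m0 j p) (h01 : ∀ j, ∑ p, m0 j p = 1)
    (D A : Finset I) : ∑ P : ∀ i, T i, ∏ i, wA m m0 D A i (P i) ≤ 1 := by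
  rw [← Fintype.prod_sum]
  refine prod_le_one (fun i _ => sum_nonneg fun p _ => wA_nn m m0 hm hm0 D A i p) fun i _ => ?_
  unfold wA
  by_cases h : i ∈ D
  · simp only [if_pos h]
    exact hm1 _ _
  · simp only [if_neg h]
    exact (h01 i).le

/-- one step -/
theorem stepC (m : Bool → ∀ j, T j → ℝ) (m0 : ∀ j, T j → ℝ) (f : (∀ j, T j) → I → Bool)
    (hm : ∀ b j p, 0 ≤ m b j p) (hm1 : ∀ b j, ∑ p, m b j p ≤ 1) (hm0 : ∀ j p, 0 ≤ m0 j p)
    (h01 : ∀ j, ∑ p, m0 j p = 1) (D : Finset I) (j : I) (hj : j ∈ D) (F : (∀ j, T j) → ℝ)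
    (e t : ℝ) (ht : 0 ≤ t)
    (H : ∀ (κ : I → Bool) (P : ∀ j, T j),
      |∑ p, m (κ j) j p * (F (update P j p) * evC f D κ (update P j p)) -
        ∑ p, m0 j p * (F (update P j p) * evC f D κ (update P j p))| ≤
        e * ∑ p, m0 j p * evC f D κ (update P j p) + t) :
    |∑ P, wC m m0 f D P * F P - ∑ P, wC m m0 f (D.erase j) P * F P| ≤
      e * ∑ P, wC m m0 f (D.erase j) P + 2 ^ D.card * t := by
  have hone : ∑ P, wC m m0 f (D.erase j) P = ∑ P, wC m m0 f (D.erase j) P * (fun _ => (1 : ℝ)) P :=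
    sum_congr rfl fun P _ => (mul_one _).symm
  rw [hone, wC_sum m m0 f D D (Subset.refl D) F, wC_sum m m0 f D (D.erase j) (erase_subset j D) F,
    wC_sum m m0 f D (D.erase j) (erase_subset j D) (fun _ => 1), ← sum_sub_distrib]
  -- one set of answers
  have key : ∀ A ∈ D.powerset,
      |∑ P, (∏ i, wA m m0 D A i (P i)) * (F P * evC f D (kA A) P) -
        ∑ P, (∏ i, wA m m0 (D.erase j) A i (P i)) * (F P * evC f D (kA A) P)| ≤
      e * ∑ P, (∏ i, wA m m0 (D.erase j) A i (P i)) * (1 * evC f D (kA A) P) + t := by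
    intro A _
    -- both sums after resampling
    have e1 : ∀ (μ : T j → ℝ) (G : (∀ i, T i) → ℝ),
        ∑ P : ∀ i, T i, (μ (P j) * ∏ i ∈ univ.erase j, wA m m0 D A i (P i)) * G P =
        ∑ P : ∀ i, T i, (∏ i, wA m m0 (D.erase j) A i (P i)) * ∑ p, μ p * G (update P j p) := by
      intro μ G
      rw [resampleD j (m0 j) (h01 j)]
      refine sum_congr rfl fun P _ => ?_
      rw [wA_split', mul_assoc]
      congr 1
      rw [mul_sum]
      refine sum_congr rfl fun p _ => ?_
      rw [rest_update, update_self]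
      ring
    have e2 : ∑ P, (∏ i, wA m m0 D A i (P i)) * (F P * evC f D (kA A) P) =
        ∑ P : ∀ i, T i, (∏ i, wA m m0 (D.erase j) A i (P i)) *
          ∑ p, m (kA A j) j p * (F (update P j p) * evC f D (kA A) (update P j p)) := by
      rw [← e1 (m (kA A j) j) fun P => F P * evC f D (kA A) P]
      exact sum_congr rfl fun P _ => by rw [wA_split m m0 D A j hj P]
    have e3 : ∀ G : (∀ i, T i) → ℝ, ∑ P, (∏ i, wA m m0 (D.erase j) A i (P i)) * G P =
        ∑ P : ∀ i, T i, (∏ i, wA m m0 (D.erase j) A i (P i)) *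
          ∑ p, m0 j p * G (update P j p) := by
      intro G
      rw [← e1 (m0 j) G]
      exact sum_congr rfl fun P _ => by rw [wA_split' m m0 D A j P]
    have hnn : ∀ P : ∀ i, T i, 0 ≤ ∏ i, wA m m0 (D.erase j) A i (P i) := fun P =>
      prod_nonneg fun i _ => wA_nn m m0 hm hm0 (D.erase j) A i (P i)
    rw [e2, e3 fun P => F P * evC f D (kA A) P, e3 fun P => 1 * evC f D (kA A) P,
      ← sum_sub_distrib]
    calc |∑ P : ∀ i, T i, ((∏ i, wA m m0 (D.erase j) A i (P i)) *
            ∑ p, m (kA A j) j p * (F (update P j p) * evC f D (kA A) (update P j p)) -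
          (∏ i, wA m m0 (D.erase j) A i (P i)) *
            ∑ p, m0 j p * (F (update P j p) * evC f D (kA A) (update P j p)))|
        ≤ ∑ P : ∀ i, T i, |(∏ i, wA m m0 (D.erase j) A i (P i)) *
            ∑ p, m (kA A j) j p * (F (update P j p) * evC f D (kA A) (update P j p)) -
          (∏ i, wA m m0 (D.erase j) A i (P i)) *
            ∑ p, m0 j p * (F (update P j p) * evC f D (kA A) (update P j p))| :=
          abs_sum_le_sum_abs _ _
      _ ≤ ∑ P : ∀ i, T i, (∏ i, wA m m0 (D.erase j) A i (P i)) *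
            (e * ∑ p, m0 j p * evC f D (kA A) (update P j p) + t) := by
          refine sum_le_sum fun P _ => ?_
          rw [← mul_sub, abs_mul, abs_of_nonneg (hnn P)]
          exact mul_le_mul_of_nonneg_left (H (kA A) P) (hnn P)
      _ = e * ∑ P : ∀ i, T i, (∏ i, wA m m0 (D.erase j) A i (P i)) *
            ∑ p, m0 j p * (1 * evC f D (kA A) (update P j p)) +
          (∑ P : ∀ i, T i, ∏ i, wA m m0 (D.erase j) A i (P i)) * t := by
          rw [sum_congr rfl fun P _ => mul_add (∏ i, wA m m0 (D.erase j) A i (P i)) _ _,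
            sum_add_distrib, sum_mul, mul_sum]
          congr 1
          refine sum_congr rfl fun P _ => ?_
          simp only [one_mul]
          ring
      _ ≤ _ := by
          have h1 := mul_le_mul_of_nonneg_right
            (mass_le m m0 hm hm1 hm0 h01 (D.erase j) A) ht
          linarith
  calc |∑ A ∈ D.powerset, (∑ P, (∏ i, wA m m0 D A i (P i)) * (F P * evC f D (kA A) P) -
        ∑ P, (∏ i, wA m m0 (D.erase j) A i (P i)) * (F P * evC f D (kA A) P))|
      ≤ ∑ A ∈ D.powerset, |∑ P, (∏ i, wA m m0 D A i (P i)) * (F P * evC f D (kA A) P) -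
        ∑ P, (∏ i, wA m m0 (D.erase j) A i (P i)) * (F P * evC f D (kA A) P)| :=
        abs_sum_le_sum_abs _ _
    _ ≤ ∑ A ∈ D.powerset,
        (e * ∑ P, (∏ i, wA m m0 (D.erase j) A i (P i)) * (1 * evC f D (kA A) P) + t) :=
        sum_le_sum key
    _ = _ := by
        rw [sum_add_distrib, ← mul_sum, sum_const, card_powerset, nsmul_eq_mul]
        push_cast
        ring

/-- the mass -/
theorem massC (m : Bool → ∀ j, T j → ℝ) (m0 : ∀ j, T j → ℝ) (f : (∀ j, T j) → I → Bool)
    (sc : I → ℕ) (ε τ : I → ℝ)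
    (hm : ∀ b j p, 0 ≤ m b j p) (hm1 : ∀ b j, ∑ p, m b j p ≤ 1) (hm0 : ∀ j p, 0 ≤ m0 j p)
    (h01 : ∀ j, ∑ p, m0 j p = 1) (hε : ∀ j, 0 ≤ ε j) (hτ : ∀ j, 0 ≤ τ j)
    (H : ∀ (j : I) (S : Finset I) (κ : I → Bool) (P : ∀ j, T j), j ∈ S →
      (∀ i ∈ S, sc i ≤ sc j) →
      |∑ p, m (κ j) j p * evC f S κ (update P j p) - ∑ p, m0 j p * evC f S κ (update P j p)| ≤
        ε j * ∑ p, m0 j p * evC f S κ (update P j p) + τ j)
    (hs : ∑ j, (ε j + 2 ^ (univ.filter fun i => sc i ≤ sc j).card * τ j) ≤ 1 / 8) (n : ℕ) :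
    ∀ D : Finset I, D.card = n → |∑ P, wC m m0 f D P - 1| ≤
      2 * ∑ j ∈ D, (ε j + 2 ^ (univ.filter fun i => sc i ≤ sc j).card * τ j) := by
  obtain ⟨η, hη⟩ : ∃ η : I → ℝ, η = fun j =>
    (ε j + 2 ^ (univ.filter fun i => sc i ≤ sc j).card * τ j) := ⟨_, rfl⟩
  have hηj : ∀ j, η j = ε j + 2 ^ (univ.filter fun i => sc i ≤ sc j).card * τ j := fun j => by
    rw [hη]
  have hη0 : ∀ j, 0 ≤ η j := fun j => by
    rw [hηj]
    have := hτ j
    have := hε j
    positivity
  simp only [← hηj] at hs ⊢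
  induction n with
  | zero =>
    intro D hD
    rw [card_eq_zero] at hD
    subst hD
    have h1 : ∑ P, wC m m0 f ∅ P = 1 := by
      have h2 : ∀ P, wC m m0 f ∅ P = ∏ i, m0 i (P i) := by
        intro P
        unfold wC
        simp
      rw [sum_congr rfl fun P _ => h2 P, ← Fintype.prod_sum]
      exact prod_eq_one fun i _ => h01 i
    rw [h1]
    simp
  | succ n ih =>
    intro D hD
    have hne : D.Nonempty := by
      rw [← card_pos]
      omega
    obtain ⟨j, hj, hmax⟩ := exists_max_image D sc hne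
    have hD' : (D.erase j).card = n := by
      rw [card_erase_of_mem hj]
      omega
    have ih1 := ih (D.erase j) hD'
    have hst := stepC m m0 f hm hm1 hm0 h01 D j hj (fun _ => 1) (ε j) (τ j) (hτ j)
      (fun κ P => by
        simp only [one_mul]
        exact H j D κ P hj hmax)
    simp only [mul_one] at hst
    have hsub : ∑ i ∈ D.erase j, η i ≤ 1 / 8 :=
      (sum_le_sum_of_subset_of_nonneg (subset_univ _) fun i _ _ => hη0 i).trans hs
    have hZ : ∑ P, wC m m0 f (D.erase j) P ≤ 2 := by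
      have := (abs_le.1 ih1).2
      linarith
    have hcard : (2 : ℝ) ^ D.card * τ j ≤
        2 ^ (univ.filter fun i => sc i ≤ sc j).card * τ j := by
      refine mul_le_mul_of_nonneg_right ?_ (hτ j)
      refine pow_le_pow_right₀ (by norm_num) (card_le_card fun i hi => ?_)
      exact mem_filter.2 ⟨mem_univ i, hmax i hi⟩
    have hstep : |∑ P, wC m m0 f D P - ∑ P, wC m m0 f (D.erase j) P| ≤ 2 * η j := by
      refine hst.trans ?_
      rw [hηj]
      have h1 := mul_le_mul_of_nonneg_left hZ (hε j)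
      have h2 : 0 ≤ (2 : ℝ) ^ (univ.filter fun i => sc i ≤ sc j).card * τ j :=
        mul_nonneg (by positivity) (hτ j)
      linarith
    rw [← add_sum_erase D η hj]
    have h3 := abs_sub_le (∑ P, wC m m0 f D P) (∑ P, wC m m0 f (D.erase j) P) 1
    linarith

/-- the test function -/
theorem testC (m : Bool → ∀ j, T j → ℝ) (m0 : ∀ j, T j → ℝ) (f : (∀ j, T j) → I → Bool)
    (sc : I → ℕ) (ε τ : I → ℝ)
    (hm : ∀ b j p, 0 ≤ m b j p) (hm1 : ∀ b j, ∑ p, m b j p ≤ 1) (hm0 : ∀ j p, 0 ≤ m0 j p)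
    (h01 : ∀ j, ∑ p, m0 j p = 1) (hε : ∀ j, 0 ≤ ε j) (hτ : ∀ j, 0 ≤ τ j)
    (hZ : ∀ D : Finset I, ∑ P, wC m m0 f D P ≤ 2) (F : (∀ j, T j) → ℝ) (s : ℕ)
    (H : ∀ (j : I) (S : Finset I) (κ : I → Bool) (P : ∀ j, T j), s ≤ sc j → j ∈ S →
      (∀ i ∈ S, sc i ≤ sc j) →
      |∑ p, m (κ j) j p * (F (update P j p) * evC f S κ (update P j p)) -
        ∑ p, m0 j p * (F (update P j p) * evC f S κ (update P j p))| ≤
        ε j * ∑ p, m0 j p * evC f S κ (update P j p) + τ j) (n : ℕ) :
    ∀ D : Finset I, D.card = n →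
      |∑ P, wC m m0 f D P * F P - ∑ P, wC m m0 f (D.filter fun i => sc i < s) P * F P| ≤
      2 * ∑ j ∈ D.filter fun j => s ≤ sc j,
        (ε j + 2 ^ (univ.filter fun i => sc i ≤ sc j).card * τ j) := by
  obtain ⟨η, hη⟩ : ∃ η : I → ℝ, η = fun j =>
    (ε j + 2 ^ (univ.filter fun i => sc i ≤ sc j).card * τ j) := ⟨_, rfl⟩
  have hηj : ∀ j, η j = ε j + 2 ^ (univ.filter fun i => sc i ≤ sc j).card * τ j := fun j => by
    rw [hη]
  have hη0 : ∀ j, 0 ≤ η j := fun j => by
    rw [hηj]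
    have := hτ j
    have := hε j
    positivity
  simp only [← hηj]
  induction n with
  | zero =>
    intro D hD
    rw [card_eq_zero] at hD
    subst hD
    simp
  | succ n ih =>
    intro D hD
    by_cases hall : ∀ i ∈ D, sc i < s
    · rw [filter_true_of_mem hall, sub_self, abs_zero]
      have : 0 ≤ ∑ j ∈ D.filter fun j => s ≤ sc j, η j := sum_nonneg fun j _ => hη0 j
      linarith
    · push Not at hall
      obtain ⟨i0, hi0, hs0⟩ := hall
      obtain ⟨j, hj, hmax⟩ := exists_max_image D sc ⟨i0, hi0⟩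
      have hsj : s ≤ sc j := hs0.trans (hmax i0 hi0)
      have hD' : (D.erase j).card = n := by
        rw [card_erase_of_mem hj]
        omega
      have ih1 := ih (D.erase j) hD'
      have hst := stepC m m0 f hm hm1 hm0 h01 D j hj F (ε j) (τ j) (hτ j)
        (fun κ P => H j D κ P hsj hj hmax)
      have hcard : (2 : ℝ) ^ D.card * τ j ≤
          2 ^ (univ.filter fun i => sc i ≤ sc j).card * τ j := by
        refine mul_le_mul_of_nonneg_right ?_ (hτ j)
        refine pow_le_pow_right₀ (by norm_num) (card_le_card fun i hi => ?_)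
        exact mem_filter.2 ⟨mem_univ i, hmax i hi⟩
      have hstep : |∑ P, wC m m0 f D P * F P - ∑ P, wC m m0 f (D.erase j) P * F P| ≤
          2 * η j := by
        refine hst.trans ?_
        rw [hηj]
        have h1 := mul_le_mul_of_nonneg_left (hZ (D.erase j)) (hε j)
        have h2 : 0 ≤ (2 : ℝ) ^ (univ.filter fun i => sc i ≤ sc j).card * τ j :=
          mul_nonneg (by positivity) (hτ j)
        linarith
      have e1 : (D.erase j).filter (fun i => sc i < s) = D.filter fun i => sc i < s := by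
        rw [filter_erase, erase_eq_of_notMem]
        rw [mem_filter, not_and]
        intro _
        omega
      have e2 : (D.erase j).filter (fun i => s ≤ sc i) =
          (D.filter fun i => s ≤ sc i).erase j := by
        rw [filter_erase]
      rw [e1, e2] at ih1
      rw [← add_sum_erase (D.filter fun i => s ≤ sc i) η (mem_filter.2 ⟨hj, hsj⟩)]
      have h3 := abs_sub_le (∑ P, wC m m0 f D P * F P) (∑ P, wC m m0 f (D.erase j) P * F P)
        (∑ P, wC m m0 f (D.filter fun i => sc i < s) P * F P)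
      linarith

end

theorem cns : T_CON := by
  intro I _ _ T _ _ m m0 f sc ε τ hm hm1 hm0 h01 hε hτ H hs
  have hη0 : ∀ j, 0 ≤ ε j + 2 ^ (univ.filter fun i => sc i ≤ sc j).card * τ j := fun j => by
    have := hτ j
    have := hε j
    positivity
  have hmass : ∀ D : Finset I, |∑ P, wC m m0 f D P - 1| ≤ 1 / 4 := by
    intro D
    refine (massC m m0 f sc ε τ hm hm1 hm0 h01 hε hτ H hs D.card D rfl).trans ?_
    have := (sum_le_sum_of_subset_of_nonneg (subset_univ D) fun i _ _ => hη0 i).trans hs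
    linarith
  refine ⟨hmass univ, fun F s HF => ?_⟩
  exact testC m m0 f sc ε τ hm hm1 hm0 h01 hε hτ (fun D => by
    have := (abs_le.1 (hmass D)).2
    linarith) F s HF (univ : Finset I).card univ rfl

end Pool.Agent.H17.EX
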