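import Pool.Agent.H29.EX.Targets

/-!
# Two dilations: module FIR (many exceptional points)
-/

set_option autoImplicit false

open Complex MeasureTheory Set Filter Topology

namespace Pool.Agent.H17.EX.FIR

open Pool.Agent.H29.EX Pool.Agent.H25.DL Pool.Agent.H25.DP

lemma eventually_log_le {κ : ℝ} (hκ : 0 < κ) (c : ℝ) :
    ∀ᶠ T : ℝ in atTop, c * Real.log T ≤ T ^ κ := by
  have h1 := ((isLittleO_log_rpow_atTop hκ).const_mul_left c).bound zero_lt_one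
  filter_upwards [h1, eventually_ge_atTop (0 : ℝ)] with T hT hT0
  rw [one_mul, Real.norm_eq_abs, Real.norm_eq_abs, abs_of_nonneg (Real.rpow_nonneg hT0 _)] at hT
  exact (le_abs_self _).trans hT

/-- (FIR) -/
theorem pf_FIR (h1 : T_COR) (h2 : T_PH) (h3 : T_CL) : T_FIR := by
  intro F r ε hd hd2 hr hd3 hd4 hI hJ hDen hε
  obtain ⟨t₀, hP⟩ := h2 F
  have hrab : ∀ l, (F.f l).r = r ∨ (F.f l).r = 1 := by
    rintro (x | x)
    · exact hI x.1
    · exact hJ x.1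
  obtain ⟨β₁, hβ₁, hCO⟩ := h1 F.Ix F.f F.Y F.d t₀ r (ε / 2) hP hd hd2 hr hd3 hd4 hrab hDen
    (by linarith)
  obtain ⟨β₂, hβ₂, hCL⟩ := h3 F
  obtain ⟨C, T₁, hCL⟩ := hCL (max β₁ β₂) (le_max_right _ _)
  obtain ⟨T₂, hCO⟩ := hCO (max β₁ β₂) (le_max_left _ _) C
  obtain ⟨T₀, hT₀⟩ := eventually_atTop.1 ((eventually_log_le (κ := ε / 2) (by linarith) 4).and
    ((eventually_log_le (κ := 1) one_pos 8).and
    ((eventually_ge_atTop T₁).and ((eventually_ge_atTop T₂).and (eventually_ge_atTop (3 : ℝ))))))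
  refine ⟨T₀, fun T hT => ?_⟩
  obtain ⟨hsm, hsm2, hT1, hT2, hT3⟩ := hT₀ T hT
  rw [Real.rpow_one] at hsm2
  have hT0 : 0 < T := by linarith
  obtain ⟨ℓ, hℓ⟩ : ∃ ℓ : ℝ, ℓ = Real.log T := ⟨_, rfl⟩
  have hℓ0 : 0 < ℓ := by rw [hℓ]; exact Real.log_pos (by linarith)
  rw [← hℓ] at hsm hsm2
  have hsubI : Icc (5 * T / 4) (7 * T / 4) ⊆ Icc T (2 * T) :=
    Icc_subset_Icc (by linarith) (by linarith)
  obtain ⟨Ex, hEx⟩ : ∃ Ex : Set ℂ, Ex = {z | F.Exc z ∧ ∃ v ∈ Icc (5 * T / 4) (7 * T / 4),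
    |z.im - v| ≤ 2 * ℓ} := ⟨_, rfl⟩
  have hExim : ∀ z ∈ Ex, T ≤ z.im ∧ z.im ≤ 2 * T ∧ F.Exc z := by
    intro z hz
    rw [hEx] at hz
    obtain ⟨h1, v, hv, h2⟩ := hz
    have h3 := abs_le.1 h2
    have h4 := hv.1
    have h5 := hv.2
    refine ⟨?_, ?_, h1⟩ <;> linarith
  by_cases hfin : Ex.Finite
  · refine ⟨hfin.toFinset, ?_, fun z hz => hExim z (hfin.mem_toFinset.1 hz)⟩
    obtain ⟨G, hG⟩ : ∃ G : Set ℝ, G = Icc (5 * T / 4) (7 * T / 4) \
        ⋃ z ∈ Ex, Icc (z.im - 2 * ℓ) (z.im + 2 * ℓ) := ⟨_, rfl⟩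
    have hUm : MeasurableSet (⋃ z ∈ Ex, Icc (z.im - 2 * ℓ) (z.im + 2 * ℓ)) :=
      hfin.measurableSet_biUnion fun z _ => measurableSet_Icc
    have hGm : MeasurableSet G := by rw [hG]; exact measurableSet_Icc.diff hUm
    have hGs : G ⊆ Icc (5 * T / 4) (7 * T / 4) := by rw [hG]; exact sdiff_subset
    have hclean : ∀ u ∈ G, Clean F.f F.Y (max β₁ β₂) C T u := by
      intro u hu
      refine hCL T hT1 u (hsubI (hGs hu)) fun z hz hzu => ?_
      rw [hG] at hu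
      refine hu.2 ?_
      rw [mem_iUnion₂]
      refine ⟨z, ?_, ?_⟩
      · rw [hEx]
        refine ⟨hz, u, hu.1, ?_⟩
        rw [hℓ]
        exact hzu
      · rw [← hℓ] at hzu
        have := abs_le.1 hzu
        constructor <;> linarith
    have h1 := hCO T hT2 G hGm hGs hclean
    have h2 : volume.real (Icc (5 * T / 4) (7 * T / 4) \ G) ≤ hfin.toFinset.card * (4 * ℓ) := by
      have h3 : Icc (5 * T / 4) (7 * T / 4) \ G ⊆
          ⋃ z ∈ hfin.toFinset, Icc (z.im - 2 * ℓ) (z.im + 2 * ℓ) := by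
        intro u hu
        rw [hG] at hu
        by_contra hcon
        refine hu.2 ⟨hu.1, fun h4 => hcon ?_⟩
        rw [mem_iUnion₂] at h4 ⊢
        obtain ⟨z, hz, h5⟩ := h4
        exact ⟨z, hfin.mem_toFinset.2 hz, h5⟩
      have h4 : volume (⋃ z ∈ hfin.toFinset, Icc (z.im - 2 * ℓ) (z.im + 2 * ℓ)) ≤
          ∑ z ∈ hfin.toFinset, volume (Icc (z.im - 2 * ℓ) (z.im + 2 * ℓ)) :=
        measure_biUnion_finset_le _ _
      have h5 : ∑ z ∈ hfin.toFinset, volume (Icc (z.im - 2 * ℓ) (z.im + 2 * ℓ)) =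
          ENNReal.ofReal (hfin.toFinset.card * (4 * ℓ)) := by
        have h6 : ∀ z ∈ hfin.toFinset, volume (Icc (z.im - 2 * ℓ) (z.im + 2 * ℓ)) =
            ENNReal.ofReal (4 * ℓ) := by
          intro z _
          rw [Real.volume_Icc]
          congr 1
          ring
        rw [Finset.sum_congr rfl h6, Finset.sum_const, nsmul_eq_mul,
          ENNReal.ofReal_mul (Nat.cast_nonneg _), ENNReal.ofReal_natCast]
      have h6 := (measure_mono h3).trans (h4.trans h5.le)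
      exact ENNReal.toReal_le_of_le_ofReal (by positivity) h6
    have h7 : T ^ (min 1 (5 - 2 * F.d) - ε / 2) = T ^ (min 1 (5 - 2 * F.d) - ε) * T ^ (ε / 2) := by
      rw [← Real.rpow_add hT0]
      congr 1
      ring
    have hc : (0 : ℝ) ≤ hfin.toFinset.card := Nat.cast_nonneg _
    have hpos : 0 < T ^ (ε / 2) := Real.rpow_pos_of_pos hT0 _
    have h8 : T ^ (min 1 (5 - 2 * F.d) - ε) * T ^ (ε / 2) ≤ hfin.toFinset.card * T ^ (ε / 2) := by
      rw [← h7]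
      exact (h1.trans h2).trans (mul_le_mul_of_nonneg_left hsm hc)
    exact le_of_mul_le_mul_right h8 hpos
  · obtain ⟨Z, hZs, hZc⟩ := Set.Infinite.exists_subset_card_eq hfin ⌈T ^ (min 1 (5 - 2 * F.d) - ε)⌉₊
    refine ⟨Z, ?_, fun z hz => hExim z (hZs hz)⟩
    rw [hZc]
    exact Nat.le_ceil _

end Pool.Agent.H17.EX.FIR
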