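import Pool.Agent.H47.EH.RCP

/-!
Row HYC (EQP = EXPH, MP_0f8dca_lc): replacement of independent copies, two sided, relative to `B`.
-/

set_option autoImplicit false

namespace Pool.Agent.H17.EX

open Finset Function Pool.Agent.H70.EH Pool.Agent.H47.EH

/-- HYC: replacement of independent copies, relative to `B`. -/
def T_HYC : Prop := ∀ (U T : Type) [Fintype U] [DecidableEq U] [Fintype T] [DecidableEq T]
  (a b : T → ℝ) (F B : (U → T) → ℝ) (ε τ : ℝ), (∀ p, 0 ≤ a p) → (∀ p, 0 ≤ b p) → ∑ p, a p = 1 →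
  ∑ p, b p = 1 → (∀ P, 0 ≤ B P) → 0 ≤ ε → Fintype.card U * ε ≤ 1 → 0 ≤ τ →
  (∀ P u, |∑ p, a p * F (update P u p) - ∑ p, b p * F (update P u p)| ≤
    ε * ∑ p, b p * B (update P u p) + τ) →
  (∀ P u, |∑ p, a p * B (update P u p) - ∑ p, b p * B (update P u p)| ≤
    ε * ∑ p, b p * B (update P u p) + τ) →
  |∑ P, (∏ u, a (P u)) * F P - ∑ P, (∏ u, b (P u)) * F P| ≤
    3 * (Fintype.card U * ε) * ∑ P, (∏ u, b (P u)) * B P + 4 * (Fintype.card U * τ)

section

variable {U T : Type} [Fintype U] [DecidableEq U] [Fintype T]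

theorem step2 (a b : T → ℝ) (F B : (U → T) → ℝ) (ε τ : ℝ) (ha : ∀ p, 0 ≤ a p) (hb : ∀ p, 0 ≤ b p)
    (ha1 : ∑ p, a p = 1) (hb1 : ∑ p, b p = 1)
    (H : ∀ P u, |∑ p, a p * F (update P u p) - ∑ p, b p * F (update P u p)| ≤
      ε * ∑ p, b p * B (update P u p) + τ) (A : Finset U) (u0 : U) (h0 : u0 ∉ A) :
    |∑ P, wt a b (insert u0 A) P * F P - ∑ P, wt a b A P * F P| ≤
      ε * ∑ P, wt a b A P * B P + τ := by
  rw [sum_ins a b hb1 A u0 h0 F, sum_wt a b hb1 A u0 h0 F, sum_wt a b hb1 A u0 h0 B,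
    ← sum_sub_distrib]
  calc |∑ P, (wt a b A P * ∑ p, a p * F (update P u0 p) -
        wt a b A P * ∑ p, b p * F (update P u0 p))|
      ≤ ∑ P, |wt a b A P * ∑ p, a p * F (update P u0 p) -
        wt a b A P * ∑ p, b p * F (update P u0 p)| := abs_sum_le_sum_abs _ _
    _ ≤ ∑ P, wt a b A P * (ε * ∑ p, b p * B (update P u0 p) + τ) := by
        refine sum_le_sum fun P _ => ?_
        rw [← mul_sub, abs_mul, abs_of_nonneg (wt_nonneg a b ha hb A P)]
        exact mul_le_mul_of_nonneg_left (H P u0) (wt_nonneg a b ha hb A P)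
    _ = _ := by
        rw [sum_congr rfl fun P _ => mul_add (wt a b A P) _ _, sum_add_distrib, ← sum_mul,
          sum_one a b ha1 hb1 A, one_mul, mul_sum]
        congr 1
        exact sum_congr rfl fun P _ => by ring

theorem grow (a b : T → ℝ) (B : (U → T) → ℝ) (ε τ : ℝ) (ha : ∀ p, 0 ≤ a p) (hb : ∀ p, 0 ≤ b p)
    (ha1 : ∑ p, a p = 1) (hb1 : ∑ p, b p = 1) (hε : 0 ≤ ε) (hτ : 0 ≤ τ)
    (H : ∀ P u, |∑ p, a p * B (update P u p) - ∑ p, b p * B (update P u p)| ≤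
      ε * ∑ p, b p * B (update P u p) + τ) (A : Finset U) :
    ∑ P, wt a b A P * B P ≤ (1 + ε) ^ A.card * (∑ P, wt a b ∅ P * B P + A.card * τ) := by
  induction A using Finset.induction_on with
  | empty => simp
  | insert u0 A h0 ih =>
    have h1 := (abs_le.1 (step2 a b B B ε τ ha hb ha1 hb1 H A u0 h0)).2
    rw [card_insert_of_notMem h0]
    have h2 : (1 + ε) * ∑ P, wt a b A P * B P ≤
        (1 + ε) * ((1 + ε) ^ A.card * (∑ P, wt a b ∅ P * B P + A.card * τ)) :=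
      mul_le_mul_of_nonneg_left ih (by linarith)
    have h3 : τ ≤ (1 + ε) ^ (A.card + 1) * τ :=
      le_mul_of_one_le_left hτ (one_le_pow₀ (by linarith))
    calc ∑ P, wt a b (insert u0 A) P * B P
        ≤ (1 + ε) * ((1 + ε) ^ A.card * (∑ P, wt a b ∅ P * B P + A.card * τ)) +
          (1 + ε) ^ (A.card + 1) * τ := by linarith
      _ = _ := by
          push_cast
          ring

theorem diff (a b : T → ℝ) (F B : (U → T) → ℝ) (ε τ : ℝ) (ha : ∀ p, 0 ≤ a p) (hb : ∀ p, 0 ≤ b p)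
    (ha1 : ∑ p, a p = 1) (hb1 : ∑ p, b p = 1) (hB : ∀ P, 0 ≤ B P) (hε : 0 ≤ ε) (hτ : 0 ≤ τ)
    (HF : ∀ P u, |∑ p, a p * F (update P u p) - ∑ p, b p * F (update P u p)| ≤
      ε * ∑ p, b p * B (update P u p) + τ)
    (HB : ∀ P u, |∑ p, a p * B (update P u p) - ∑ p, b p * B (update P u p)| ≤
      ε * ∑ p, b p * B (update P u p) + τ) (A : Finset U) :
    |∑ P, wt a b A P * F P - ∑ P, wt a b ∅ P * F P| ≤ A.card *
      (ε * ((1 + ε) ^ Fintype.card U * (∑ P, wt a b ∅ P * B P + Fintype.card U * τ)) + τ) := by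
  have hE0 : 0 ≤ ∑ P, wt a b ∅ P * B P :=
    sum_nonneg fun P _ => mul_nonneg (wt_nonneg a b ha hb ∅ P) (hB P)
  induction A using Finset.induction_on with
  | empty => simp
  | insert u0 A h0 ih =>
    have h1 := step2 a b F B ε τ ha hb ha1 hb1 HF A u0 h0
    have h2 := grow a b B ε τ ha hb ha1 hb1 hε hτ HB A
    have hc : A.card ≤ Fintype.card U := card_le_univ A
    have h3 : (1 + ε) ^ A.card * (∑ P, wt a b ∅ P * B P + A.card * τ) ≤
        (1 + ε) ^ Fintype.card U * (∑ P, wt a b ∅ P * B P + Fintype.card U * τ) := by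
      have h4 : (A.card : ℝ) * τ ≤ Fintype.card U * τ :=
        mul_le_mul_of_nonneg_right (by exact_mod_cast hc) hτ
      have h5 : 0 ≤ (A.card : ℝ) * τ := mul_nonneg (Nat.cast_nonneg _) hτ
      exact mul_le_mul (pow_le_pow_right₀ (by linarith) hc) (by linarith) (by linarith)
        (by positivity)
    have h6 := mul_le_mul_of_nonneg_left (h2.trans h3) hε
    rw [card_insert_of_notMem h0]
    have h7 := abs_sub_le (∑ P, wt a b (insert u0 A) P * F P) (∑ P, wt a b A P * F P)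
      (∑ P, wt a b ∅ P * F P)
    push_cast
    linarith

end

theorem hyc : T_HYC := by
  intro U T _ _ _ _ a b F B ε τ ha hb ha1 hb1 hB hε hU hτ HF HB
  have h := diff a b F B ε τ ha hb ha1 hb1 hB hε hτ HF HB univ
  have e1 : ∀ P : U → T, wt a b univ P = ∏ u, a (P u) := by
    intro P; unfold wt; simp
  have e2 : ∀ P : U → T, wt a b ∅ P = ∏ u, b (P u) := by
    intro P; unfold wt; simp
  simp only [e1, e2, card_univ] at h
  refine h.trans ?_
  obtain ⟨N, hN⟩ : ∃ N : ℝ, N = Fintype.card U := ⟨_, rfl⟩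
  obtain ⟨g, hg⟩ : ∃ g : ℝ, g = ∑ P, (∏ u, b (P u)) * B P := ⟨_, rfl⟩
  have hN0 : 0 ≤ N := by rw [hN]; exact Nat.cast_nonneg _
  have hg0 : 0 ≤ g := by
    rw [hg]
    exact sum_nonneg fun P _ => mul_nonneg (prod_nonneg fun u _ => hb _) (hB P)
  have hpow : (1 + ε) ^ Fintype.card U ≤ 3 := by
    have h5 : (1 + ε) ^ Fintype.card U ≤ Real.exp (Fintype.card U * ε) := by
      rw [mul_comm, Real.exp_mul, Real.rpow_natCast]
      refine pow_le_pow_left₀ (by linarith) ?_ _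
      linarith [Real.add_one_le_exp ε]
    have h6 := Real.exp_le_exp.2 hU
    linarith [Real.exp_one_lt_d9]
  rw [← hN] at hU ⊢
  rw [← hg]
  have hτN : 0 ≤ N * τ := mul_nonneg hN0 hτ
  have h8 : (1 + ε) ^ Fintype.card U * (g + N * τ) ≤ 3 * (g + N * τ) :=
    mul_le_mul_of_nonneg_right hpow (by linarith)
  have hNe : 0 ≤ N * ε := mul_nonneg hN0 hε
  calc N * (ε * ((1 + ε) ^ Fintype.card U * (g + N * τ)) + τ)
      = N * ε * ((1 + ε) ^ Fintype.card U * (g + N * τ)) + N * τ := by ring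
    _ ≤ N * ε * (3 * (g + N * τ)) + N * τ := by
        linarith [mul_le_mul_of_nonneg_left h8 hNe]
    _ ≤ 3 * (N * ε) * g + 4 * (N * τ) := by
        have h9 : N * ε * (N * τ) ≤ N * τ := mul_le_of_le_one_left hτN hU
        nlinarith

end Pool.Agent.H17.EX
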