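import Pool.Agent.H98.EX.PTargets

/-!
# The calculus of `LL` (LLC)
-/

set_option autoImplicit false

open MeasureTheory ProbabilityTheory Filter Topology
open scoped ENNReal
open Pool.Agent.H95 Pool.Agent.H95.Cop
open Pool.Agent.H98.EX

namespace Pool.Agent.H17.EX

lemma llc_add (P : Measure (ℕ → ℝ)) {c : ℝ} {X Y : (ℕ → ℝ) → ℝ≥0∞}
    (hX : Measurable X) (hY : Measurable Y) (h1 : LL P c X) (h2 : LL P c Y) :
    LL P c (fun x => X x + Y x) := by
  unfold LL at h1 h2 ⊢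
  have h := ENNReal.lintegral_Lp_add_le (μ := P) (p := 2) hX.aemeasurable hY.aemeasurable
    (by norm_num)
  rw [lintegral_add_left hX, mul_add]
  refine le_trans ?_ (add_le_add h1 h2)
  simpa using h

lemma llc_zero (P : Measure (ℕ → ℝ)) (c : ℝ) : LL P c (fun _ => 0) := by
  unfold LL
  simp

lemma llc_sum (P : Measure (ℕ → ℝ)) (c : ℝ) (X : ℕ → (ℕ → ℝ) → ℝ≥0∞)
    (hX : ∀ i, Measurable (X i)) : ∀ n : ℕ, (∀ i < n, LL P c (X i)) →
    LL P c fun x => ∑ i ∈ Finset.range n, X i x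
  | 0, _ => by simpa using llc_zero P c
  | n + 1, h => by
      have ih := llc_sum P c X hX n (fun i hi => h i (by omega))
      have h2 := llc_add P (Finset.measurable_sum (Finset.range n) (fun i _ => hX i)) (hX n)
        ih (h n (by omega))
      simpa [Finset.sum_range_succ] using h2

theorem pf_LLC : T_LLC := by
  refine ⟨?_, ?_, ?_, ?_⟩
  · intro P _ c n X hX h
    exact llc_sum P c X hX n h
  · intro ϖ _ B f g c c' hf hB hg h1 h2
    unfold LL at h1 h2 ⊢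
    have e1 : ∫⁻ x, f x * g (shift B x) ∂(iid ϖ) =
        (∫⁻ x, f x ∂(iid ϖ)) * ∫⁻ x, g x ∂(iid ϖ) :=
      Pool.Agent.H96.Cop.lint_mul_shift ϖ hB hf hg
    have e2 : ∫⁻ x, (f x * g (shift B x)) ^ (2 : ℝ) ∂(iid ϖ) =
        (∫⁻ x, f x ^ (2 : ℝ) ∂(iid ϖ)) * ∫⁻ x, g x ^ (2 : ℝ) ∂(iid ϖ) := by
      have := Pool.Agent.H96.Cop.lint_mul_shift ϖ (t := B) (f := fun x => f x ^ (2 : ℝ))
        (g := fun x => g x ^ (2 : ℝ)) (fun x x' hxx => by simp only [hB x x' hxx])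
        (hf.pow_const _) (hg.pow_const _)
      rw [← this]
      exact lintegral_congr fun x => ENNReal.mul_rpow_of_nonneg _ _ (by norm_num)
    rw [e1, e2, ENNReal.mul_rpow_of_nonneg _ _ (by norm_num), Real.exp_add,
      ENNReal.ofReal_mul (Real.exp_pos _).le]
    calc _ ≤ (ENNReal.ofReal (Real.exp c) * ∫⁻ x, f x ∂(iid ϖ)) *
          (ENNReal.ofReal (Real.exp c') * ∫⁻ x, g x ∂(iid ϖ)) := mul_le_mul' h1 h2
      _ = _ := by ring
  · intro P c c' X hc h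
    unfold LL at h ⊢
    exact h.trans (mul_le_mul' (ENNReal.ofReal_le_ofReal (Real.exp_le_exp.2 hc)) le_rfl)
  · intro P c a X ha hX h
    unfold LL at h ⊢
    have e1 : ∫⁻ x, a * X x ∂P = a * ∫⁻ x, X x ∂P := lintegral_const_mul a hX
    have e2 : ∫⁻ x, (a * X x) ^ (2 : ℝ) ∂P = a ^ (2 : ℝ) * ∫⁻ x, X x ^ (2 : ℝ) ∂P := by
      rw [← lintegral_const_mul _ (hX.pow_const _)]
      exact lintegral_congr fun x => ENNReal.mul_rpow_of_nonneg _ _ (by norm_num)
    rw [e1, e2, ENNReal.mul_rpow_of_nonneg _ _ (by norm_num), ← ENNReal.rpow_mul]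
    have e3 : (2 : ℝ) * (1 / 2) = 1 := by norm_num
    rw [e3, ENNReal.rpow_one]
    calc _ ≤ a * (ENNReal.ofReal (Real.exp c) * ∫⁻ x, X x ∂P) := mul_le_mul' le_rfl h
      _ = _ := by ring

end Pool.Agent.H17.EX
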