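import Pool.Agent.H98.EX.BTargets
import Pool.Agent.H36.CE.STR

/-!
# From cells to boxes (QB1)
-/

set_option autoImplicit false

open MeasureTheory ProbabilityTheory Filter Topology
open scoped ENNReal
open Pool.Agent.H95 Pool.Agent.H95.Cop
open Pool.Agent.H99.CE (NX w0 w1 BX)
open Pool.Agent.H98.EX
open Pool.Agent.H36.CE (sr_comb sr_block sr_shift)

namespace Pool.Agent.H17.EX

lemma qb_BX (w : ℕ → (ℕ → ℝ) → ℝ≥0∞) (k a : ℕ) (x : ℕ → ℝ) :
    BX w k a x = NX w k false false a x := by
  unfold BX NX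
  refine Finset.sum_congr rfl fun e _ => Finset.sum_congr rfl fun r _ => ?_
  by_cases hc : e ≤ a * k + r
  · rw [if_pos hc, if_pos hc]; simp
  · rw [if_neg hc, if_neg hc]

lemma qb_first (y : ℕ → ℝ≥0∞) (Y : ℝ≥0∞) (M : ℕ) (J : ℕ)
    (hY : ∀ n, ∑ e ∈ Finset.range n, y e ≤ Y) :
    ∑ j ∈ Finset.range J, (∑ i ∈ Finset.range M, ∑ r ∈ Finset.range M,
      if i ≤ j * M + r then y (j * M + r - i) else 0) ≤ M * Y := by
  have h1 : ∀ j ∈ Finset.range J, (∑ i ∈ Finset.range M, ∑ r ∈ Finset.range M,
      if i ≤ j * M + r then y (j * M + r - i) else 0) =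
      ∑ r ∈ Finset.range M, (fun s => ∑ i ∈ Finset.range M,
        if i ≤ s then y (s - i) else 0) (j * M + r) := by
    intro j _
    rw [Finset.sum_comm]
  rw [Finset.sum_congr rfl h1, sr_block (fun s => ∑ i ∈ Finset.range M,
    if i ≤ s then y (s - i) else 0) M J, Finset.sum_comm]
  calc ∑ i ∈ Finset.range M, ∑ s ∈ Finset.range (J * M), (if i ≤ s then y (s - i) else 0)
      ≤ ∑ _i ∈ Finset.range M, Y := by
        refine Finset.sum_le_sum fun i _ => ?_
        exact (sr_shift i y (J * M)).le.trans (hY _)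
    _ = M * Y := by simp

theorem pf_QB1 (hPFM : Pool.Agent.H99.CE.T_PFM) (hBBX : Pool.Agent.H99.CE.T_BBX) : T_QB1 := by
  intro K ν _ k M θ hk hM hθ hθ1 Y Y1 hY hY1
  have mM : ∀ e, Measurable (BX (w1 K (M * k)) k e) := fun e =>
    ((hPFM.1 (w1 K (M * k)) ((hPFM.2 K).1 (M * k))).2.1 k e).1
  set y : ℕ → ℝ≥0∞ := fun e => ∫⁻ x, BX (w1 K (M * k)) k e x ^ θ ∂(iid ν) with hy
  have hyn : ∀ e, y e ≤ yn K k (M * k) ν θ e := by
    intro e
    unfold yn
    have h1 : y e = ∫⁻ x, NX (w1 K (M * k)) k false false e x ^ θ ∂(iid ν) := by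
      rw [hy]
      exact lintegral_congr fun x => by rw [qb_BX]
    rw [h1]
    exact Finset.single_le_sum
      (f := fun p : Bool => ∫⁻ x, NX (w1 K (M * k)) k p false e x ^ θ ∂(iid ν))
      (fun _ _ => zero_le) (Finset.mem_univ false)
  have hmi : ∀ j i r, Measurable fun x => if i ≤ j * M + r then
      BX (w1 K (M * k)) k (j * M + r - i) (shift (i * k) x) ^ θ else 0 := by
    intro j i r
    by_cases hc : i ≤ j * M + r
    · simp only [if_pos hc]
      exact ((mM _).comp (measurable_shift _)).pow_const θ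
    · simp only [if_neg hc]
      exact measurable_const
  have key : ∀ j, ∫⁻ x, BX (w1 K (M * k)) (M * k) j x ^ θ ∂(iid ν) ≤
      ∑ i ∈ Finset.range M, ∑ r ∈ Finset.range M,
          if i ≤ j * M + r then y (j * M + r - i) else 0 := by
    intro j
    calc ∫⁻ x, BX (w1 K (M * k)) (M * k) j x ^ θ ∂(iid ν)
        ≤ ∫⁻ x, ∑ i ∈ Finset.range M, ∑ r ∈ Finset.range M, (if i ≤ j * M + r then
            BX (w1 K (M * k)) k (j * M + r - i) (shift (i * k) x) ^ θ else 0) ∂(iid ν) := by
          refine lintegral_mono fun x => ?_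
          rw [hBBX (w1 K (M * k)) k M j x hk hM]
          refine (Pool.Agent.H96.Cop.rpow_sum_le _ _ θ hθ hθ1).trans
            (Finset.sum_le_sum fun i _ => ?_)
          refine (Pool.Agent.H96.Cop.rpow_sum_le _ _ θ hθ hθ1).trans
            (Finset.sum_le_sum fun r _ => ?_)
          by_cases hc : i ≤ j * M + r
          · rw [if_pos hc, if_pos hc]
          · rw [if_neg hc, if_neg hc, ENNReal.zero_rpow_of_pos hθ]
      _ = ∑ i ∈ Finset.range M, ∑ r ∈ Finset.range M,
            if i ≤ j * M + r then y (j * M + r - i) else 0 := by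
          rw [lintegral_finsetSum _ (fun i _ => Finset.measurable_sum _ fun r _ => hmi j i r)]
          refine Finset.sum_congr rfl fun i _ => ?_
          rw [lintegral_finsetSum _ (fun r _ => hmi j i r)]
          refine Finset.sum_congr rfl fun r _ => ?_
          by_cases hc : i ≤ j * M + r
          · simp only [if_pos hc]
            have hm3 : Measurable fun x => BX (w1 K (M * k)) k (j * M + r - i) x ^ θ :=
              (mM _).pow_const θ
            exact (measurePreserving_shift (ν := ν) (i * k)).lintegral_comp hm3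
          · simp only [if_neg hc]
            simp
  refine ⟨fun n => ?_, fun n => ?_⟩
  · refine (Finset.sum_le_sum fun j _ => key j).trans ?_
    exact qb_first y Y M n fun m => (Finset.sum_le_sum fun e _ => hyn e).trans (hY m)
  · refine (Finset.sum_le_sum fun j _ => mul_le_mul' le_rfl (key j)).trans ?_
    refine (sr_comb y M hM n).trans ?_
    exact (Finset.sum_le_sum fun e _ => mul_le_mul' le_rfl (hyn e)).trans (hY1 _)

end Pool.Agent.H17.EX
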