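import Pool.Agent.H30.EH.RDI
import Pool.Agent.H36.NB.STE
import Pool.Agent.H4.EH.STR

/-!
Row RWK (EQP = EXPH, MP_0f8dca_lc): the walk does not change the expectation of a function `F` by more
than a small multiple of the mean of `B`, if the second level of `F` and of `B` is small relative to
the mean of `B`.
-/

set_option autoImplicit false

namespace Pool.Agent.H17.EX

open Finset Pool.Agent.H6.NB Pool.Agent.H70.EH Pool.Agent.H30.EH.RDI

/-- RWK: the two distributions, relative to `B`. -/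
def T_RWK : Prop := ∀ (q : ℕ) (F B : (VV q → Bool) → ℝ) (Λ τ : ℝ), 10 ≤ q → 0 ≤ Λ →
  Λ ≤ √(2 ^ q) → 0 ≤ τ → (∀ ρ, L12 (rst ρ F) ≤ Λ * mn (rst ρ B) + τ) →
  (∀ ρ, L12 (rst ρ B) ≤ Λ * mn (rst ρ B) + τ) → (∀ y, |F y| ≤ 1) → (∀ y, 0 ≤ B y ∧ B y ≤ 1) →
  |∑ p, mv true q p * F p - ∑ p, mv false q p * F p| ≤
    Λ / √(2 ^ q) * ∑ p, mv false q p * B p + 2 * (τ + 1 / 2 ^ 2 ^ (q - 2))

/-- one step of the walk -/
theorem str2 (h1 : T_FOU) (h2 : T_RST) (h3 : T_DIR) (q : ℕ) (F B : (VV q → Bool) → ℝ)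
    (Λ τ δ : ℝ) (W : VV q → ℝ) (hL : ∀ ρ, L12 (rst ρ F) ≤ Λ * mn (rst ρ B) + τ)
    (hF : ∀ y, |F y| ≤ 1) (hW : ∀ v, |W v| ≤ 1 / 2) (hδ : 0 ≤ δ)
    (hx : 4 * δ * (2 ^ q * √(2 ^ q)) ≤ 1) :
    |(∑ r : (Fin q → Bool) → Bool, mle F (fun v => W v + δ * dir q r v)) / 2 ^ 2 ^ q - mle F W| ≤
      4 * δ ^ 2 * Λ / √(2 ^ q) * mle B W + (4 * δ ^ 2 * τ / √(2 ^ q) +
        (4 * δ * (2 ^ q * √(2 ^ q))) ^ 3) := by
  obtain ⟨c, hc0, hc1, hc⟩ := h2 (VV q) W hW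
  have hs : (0 : ℝ) < √(2 ^ q) := Real.sqrt_pos.2 (by positivity)
  set s : ℝ := √(2 ^ q) with hsd
  set X : ℝ := (4 * δ * (2 ^ q * s)) ^ 3 with hX
  have hW0 : ∀ G : (VV q → Bool) → ℝ, mle G W = ∑ ρ, c ρ * mn (rst ρ G) := by
    intro G
    have h4 := hc G (fun _ => 0)
    simp only [add_zero, mul_zero] at h4
    rw [h4]
    exact Finset.sum_congr rfl fun ρ _ => by rw [Pool.Agent.H4.EH.STR.mle_mn]
  have hE : (∑ r : (Fin q → Bool) → Bool, mle F (fun v => W v + δ * dir q r v)) / 2 ^ 2 ^ q =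
      ∑ ρ, c ρ * ((∑ r : (Fin q → Bool) → Bool,
        mle (rst ρ F) (fun v => 2 * (δ * dir q r v))) / 2 ^ 2 ^ q) := by
    have h4 : ∀ r : (Fin q → Bool) → Bool, mle F (fun v => W v + δ * dir q r v) =
        ∑ ρ, c ρ * mle (rst ρ F) (fun v => 2 * (δ * dir q r v)) :=
      fun r => hc F fun v => δ * dir q r v
    rw [Finset.sum_congr rfl fun r _ => h4 r, Finset.sum_comm, Finset.sum_div]
    refine Finset.sum_congr rfl fun ρ _ => ?_
    rw [← Finset.mul_sum, mul_div_assoc]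
  have h5 : ∀ ρ : VV q → Option Bool,
      |(∑ r : (Fin q → Bool) → Bool, mle (rst ρ F) (fun v => 2 * (δ * dir q r v))) / 2 ^ 2 ^ q -
        mn (rst ρ F)| ≤ 4 * δ ^ 2 * Λ / s * mn (rst ρ B) + (4 * δ ^ 2 * τ / s + X) := by
    intro ρ
    have h6 := Pool.Agent.H36.NB.STE.step h1 h3 q (rst ρ F) (Λ * mn (rst ρ B) + τ) δ (hL ρ)
      (fun y => hF _) hδ hx
    rw [← hsd, ← hX, mul_zero, Pool.Agent.H4.EH.STR.mle_mn] at h6
    have h8 : 4 * δ ^ 2 * (Λ * mn (rst ρ B) + τ) / s =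
        4 * δ ^ 2 * Λ / s * mn (rst ρ B) + 4 * δ ^ 2 * τ / s := by ring
    rw [h8] at h6
    linarith
  rw [hE, hW0 F, hW0 B, ← Finset.sum_sub_distrib]
  calc |∑ ρ, (c ρ * ((∑ r : (Fin q → Bool) → Bool,
        mle (rst ρ F) (fun v => 2 * (δ * dir q r v))) / 2 ^ 2 ^ q) - c ρ * mn (rst ρ F))|
      ≤ ∑ ρ, |c ρ * ((∑ r : (Fin q → Bool) → Bool,
        mle (rst ρ F) (fun v => 2 * (δ * dir q r v))) / 2 ^ 2 ^ q) - c ρ * mn (rst ρ F)| :=
        Finset.abs_sum_le_sum_abs _ _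
    _ ≤ ∑ ρ, c ρ * (4 * δ ^ 2 * Λ / s * mn (rst ρ B) + (4 * δ ^ 2 * τ / s + X)) := by
        refine Finset.sum_le_sum fun ρ _ => ?_
        rw [← mul_sub, abs_mul, abs_of_nonneg (hc0 ρ)]
        exact mul_le_mul_of_nonneg_left (h5 ρ) (hc0 ρ)
    _ = _ := by
        rw [Finset.sum_congr rfl fun ρ _ => mul_add (c ρ) _ _, Finset.sum_add_distrib,
          ← Finset.sum_mul, hc1, one_mul, Finset.mul_sum]
        congr 1
        exact Finset.sum_congr rfl fun ρ _ => by ring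

/-- the steps of the walk of `B` -/
theorem iter_upper (h2 : T_WLK) (q : ℕ) (δ : ℝ) (hδ : 0 ≤ δ) (hδ2 : δ * √(2 ^ q) ≤ 1 / 2)
    (G : (VV q → ℝ) → ℝ) (a b : ℝ) (ha0 : 0 ≤ a) (hb : 0 ≤ b)
    (hG : ∀ W, (∀ v, |W v| ≤ 1) → AA q δ G W ≤ (1 + a) * G W + b) (n : ℕ) :
    ∀ W, (∀ v, |W v| ≤ 1) → (AA q δ)^[n] G W ≤ (1 + a) ^ n * (G W + n * b) := by
  have h := h2 q δ hδ hδ2
  induction n with
  | zero => intro W _; simp
  | succ n ih =>
    intro W hW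
    rw [Function.iterate_succ_apply]
    have h3 := h.2.1 n (AA q δ G) (fun W => (1 + a) * G W + b) hG W hW
    rw [iter_affine h2 q δ hδ hδ2] at h3
    have h4 : (1 + a) * (AA q δ)^[n] G W ≤ (1 + a) * ((1 + a) ^ n * (G W + n * b)) :=
      mul_le_mul_of_nonneg_left (ih W hW) (by linarith)
    have h5 : b ≤ (1 + a) ^ (n + 1) * b :=
      le_mul_of_one_le_left hb (one_le_pow₀ (by linarith))
    calc (AA q δ)^[n] (AA q δ G) W ≤ (1 + a) * ((1 + a) ^ n * (G W + n * b)) + b :=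
          h3.trans (by linarith)
      _ ≤ (1 + a) * ((1 + a) ^ n * (G W + n * b)) + (1 + a) ^ (n + 1) * b := by linarith
      _ = (1 + a) ^ (n + 1) * (G W + ((n + 1 : ℕ) : ℝ) * b) := by
          push_cast
          ring

/-- the steps of the walk of `F` -/
theorem iter_diff (h2 : T_WLK) (q : ℕ) (δ : ℝ) (hδ : 0 ≤ δ) (hδ2 : δ * √(2 ^ q) ≤ 1 / 2)
    (H G : (VV q → ℝ) → ℝ) (a b : ℝ) (ha0 : 0 ≤ a) (hb : 0 ≤ b)
    (hG0 : ∀ W, (∀ v, |W v| ≤ 1) → 0 ≤ G W)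
    (hG : ∀ W, (∀ v, |W v| ≤ 1) → AA q δ G W ≤ (1 + a) * G W + b)
    (hH : ∀ W, (∀ v, |W v| ≤ 1) → |AA q δ H W - H W| ≤ a * G W + b) (N n : ℕ) (hn : n ≤ N) :
    ∀ W, (∀ v, |W v| ≤ 1) → |(AA q δ)^[n] H W - H W| ≤
      n * (a * ((1 + a) ^ N * (G W + N * b)) + b) := by
  have h := h2 q δ hδ hδ2
  induction n with
  | zero => intro W _; simp
  | succ n ih =>
    intro W hW
    have ih1 := ih (by omega) W hW
    have hGW := hG0 W hW
    -- the next step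
    have hu := h.2.1 n (AA q δ H) (fun W => 1 * H W + (a * G W + b)) (fun W hW => by
      have := (abs_le.1 (hH W hW)).2
      linarith) W hW
    have hl := h.2.1 n (fun W => 1 * H W + -(a * G W + b)) (AA q δ H) (fun W hW => by
      have := (abs_le.1 (hH W hW)).1
      linarith) W hW
    have hsum : ∀ s : ℝ, (AA q δ)^[n] (fun W => 1 * H W + s * (a * G W + b)) W =
        (AA q δ)^[n] H W + s * (a * (AA q δ)^[n] G W + b) := by
      intro s
      have h3 := h.2.2.1 n (Fin 3) ![1, s * a, s * b] ![H, G, fun _ => 1] W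
      have e : (fun W : VV q → ℝ => 1 * H W + s * (a * G W + b)) = fun W =>
          ∑ i : Fin 3, (![1, s * a, s * b] : Fin 3 → ℝ) i *
            (![H, G, fun _ => 1] : Fin 3 → (VV q → ℝ) → ℝ) i W := by
        funext W
        rw [Fin.sum_univ_three]
        simp only [Matrix.cons_val_zero, Matrix.cons_val_one, Matrix.cons_val_two,
          Matrix.head_cons, Matrix.tail_cons]
        ring
      rw [e, h3, Fin.sum_univ_three]
      simp only [Matrix.cons_val_zero, Matrix.cons_val_one, Matrix.cons_val_two,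
        Matrix.head_cons, Matrix.tail_cons]
      rw [h.2.2.2 n 1 W]
      ring
    have e1 : (fun W : VV q → ℝ => 1 * H W + (a * G W + b)) =
        fun W => 1 * H W + 1 * (a * G W + b) := by
      funext W
      ring
    have e2 : (fun W : VV q → ℝ => 1 * H W + -(a * G W + b)) =
        fun W => 1 * H W + (-1) * (a * G W + b) := by
      funext W
      ring
    rw [e1, hsum 1] at hu
    rw [e2, hsum (-1)] at hl
    have hup := iter_upper h2 q δ hδ hδ2 G a b ha0 hb hG n W hW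
    have hmono : (1 + a) ^ n * (G W + n * b) ≤ (1 + a) ^ N * (G W + N * b) := by
      have h6 : (n : ℝ) ≤ N := by exact_mod_cast (by omega : n ≤ N)
      have h7 : (n : ℝ) * b ≤ N * b := mul_le_mul_of_nonneg_right h6 hb
      have h8 : 0 ≤ (n : ℝ) * b := mul_nonneg (Nat.cast_nonneg n) hb
      exact mul_le_mul (pow_le_pow_right₀ (by linarith) (by omega)) (by linarith) (by linarith)
        (by positivity)
    have hstep : a * (AA q δ)^[n] G W + b ≤ a * ((1 + a) ^ N * (G W + N * b)) + b := by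
      have := mul_le_mul_of_nonneg_left (hup.trans hmono) ha0
      linarith
    rw [Function.iterate_succ_apply]
    obtain ⟨j1, j2⟩ := abs_le.1 ih1
    rw [abs_le]
    push_cast
    constructor
    · nlinarith
    · nlinarith

theorem rwk (h1 : T_FOU) (h2 : T_RST) (h3 : T_DIR) (hW : T_WLM) (hM : T_MUV) (h4 : T_WLK) :
    T_RWK := by
  intro q F B Λ τ hq hΛ0 hΛs hτ hLF hLB hF hB
  obtain ⟨hd0, hTd, hds, hw⟩ := hW q
  obtain ⟨hx1, hTx⟩ := hw hq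
  have hs0 : 0 < √((2 : ℝ) ^ q) := Real.sqrt_pos.2 (by positivity)
  have hs1 : 1 ≤ √((2 : ℝ) ^ q) := by
    rw [Real.one_le_sqrt]
    exact one_le_pow₀ (by norm_num)
  have he : eps2 q ≤ 1 / 24 := by
    unfold eps2
    apply one_div_le_one_div_of_le (by norm_num)
    have : (0 : ℝ) ≤ q := Nat.cast_nonneg q
    linarith
  have he0 : 0 ≤ eps2 q := by unfold eps2; positivity
  have hB1 : ∀ y, |B y| ≤ 1 := fun y => abs_le.2 ⟨by linarith [(hB y).1], (hB y).2⟩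
  have hr0 : 0 ≤ Λ / √(2 ^ q) := div_nonneg hΛ0 hs0.le
  have hr1 : Λ / √(2 ^ q) ≤ 1 := (div_le_one hs0).2 hΛs
  obtain ⟨a, ha⟩ : ∃ a : ℝ, a = 4 * dm q ^ 2 * Λ / √(2 ^ q) := ⟨_, rfl⟩
  obtain ⟨b, hb⟩ : ∃ b : ℝ, b = 4 * dm q ^ 2 * τ / √(2 ^ q) +
      (4 * dm q * (2 ^ q * √(2 ^ q))) ^ 3 := ⟨_, rfl⟩
  have ha0 : 0 ≤ a := by rw [ha]; positivity
  have hb0 : 0 ≤ b := by rw [hb]; positivity
  have hTa : (Tm q : ℝ) * a ≤ Λ / √(2 ^ q) / 6 := by
    have h5 : (Tm q : ℝ) * a = 4 * (Tm q * dm q ^ 2) * (Λ / √(2 ^ q)) := by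
      rw [ha]; ring
    rw [h5, hTd]
    nlinarith
  have hTb : (Tm q : ℝ) * b ≤ τ + 1 / 2 ^ 2 ^ (q - 2) := by
    have h5 : (Tm q : ℝ) * (4 * dm q ^ 2 * τ / √(2 ^ q)) = 4 * (Tm q * dm q ^ 2) * (τ / √(2 ^ q)) := by
      ring
    have h6 : τ / √(2 ^ q) ≤ τ := div_le_self hτ hs1
    have h7 : 0 ≤ τ / √(2 ^ q) := div_nonneg hτ hs0.le
    rw [hb, mul_add, h5, hTd]
    nlinarith
  have hpow : (1 + a) ^ Tm q ≤ 2 := by
    have h5 : (1 + a) ^ Tm q ≤ Real.exp (Tm q * a) := by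
      rw [mul_comm, Real.exp_mul, Real.rpow_natCast]
      refine pow_le_pow_left₀ (by linarith) ?_ _
      linarith [Real.add_one_le_exp a]
    have h6 : (Tm q : ℝ) * a ≤ 1 / 6 := by linarith
    have h7 : Real.exp (Tm q * a) ≤ Real.exp (Real.log 2) := by
      refine Real.exp_le_exp.2 (h6.trans ?_)
      linarith [Real.log_two_gt_d9]
    rw [Real.exp_log (by norm_num)] at h7
    exact h5.trans h7
  have hstep : ∀ (F : (VV q → Bool) → ℝ), (∀ ρ, L12 (rst ρ F) ≤ Λ * mn (rst ρ B) + τ) →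
      (∀ y, |F y| ≤ 1) → ∀ W : VV q → ℝ, (∀ v, |W v| ≤ 1) →
      |AA q (dm q) (mle F) W - mle F W| ≤ a * mle B W + b := by
    intro F hL hF W hW1
    by_cases hW2 : ∀ v, |W v| ≤ 1 / 2
    · rw [AA_of_le q (dm q) (mle F) W hW2, ha, hb]
      exact str2 h1 h2 h3 q F B Λ τ (dm q) W hL hF hW2 hd0 hx1
    · rw [AA_of_not q (dm q) (mle F) W hW2, sub_self, abs_zero]
      have h5 := mle_nonneg (VV q) B W (fun y => (hB y).1) hW1
      positivity
  have hit := iter_diff h4 q (dm q) hd0 hds (mle F) (mle B) a b ha0 hb0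
    (fun W hW1 => mle_nonneg (VV q) B W (fun y => (hB y).1) hW1)
    (fun W hW1 => by
      have := (abs_le.1 (hstep B hLB hB1 W hW1)).2
      linarith) (hstep F hLF hF) (Tm q) (Tm q) le_rfl (fun _ => 0) (fun v => by simp)
  have e1 := (hM true q).2.2 F
  have e2 := (hM false q).2.2 F
  have e3 := (hM false q).2.2 B
  simp only [if_true, Bool.false_eq_true, if_false] at e1 e2 e3
  rw [e1, e2, e3]
  have hm0 : 0 ≤ mle B (fun _ : VV q => (0 : ℝ)) :=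
    mle_nonneg (VV q) B _ (fun y => (hB y).1) (fun v => by simp)
  obtain ⟨g, hg⟩ : ∃ g : ℝ, g = mle B (fun _ : VV q => (0 : ℝ)) := ⟨_, rfl⟩
  rw [← hg] at hit hm0 ⊢
  have hT0 : (0 : ℝ) ≤ Tm q := Nat.cast_nonneg _
  have hTb0 : 0 ≤ (Tm q : ℝ) * b := mul_nonneg hT0 hb0
  have hTa0 : 0 ≤ (Tm q : ℝ) * a := mul_nonneg hT0 ha0
  refine hit.trans ?_
  have h8 : (1 + a) ^ Tm q * (g + Tm q * b) ≤ 2 * (g + Tm q * b) :=
    mul_le_mul_of_nonneg_right hpow (by linarith)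
  calc (Tm q : ℝ) * (a * ((1 + a) ^ Tm q * (g + Tm q * b)) + b)
      = Tm q * a * ((1 + a) ^ Tm q * (g + Tm q * b)) + Tm q * b := by ring
    _ ≤ Tm q * a * (2 * (g + Tm q * b)) + Tm q * b := by
        linarith [mul_le_mul_of_nonneg_left h8 hTa0]
    _ ≤ Λ / √(2 ^ q) / 6 * (2 * (g + Tm q * b)) + Tm q * b := by
        linarith [mul_le_mul_of_nonneg_right hTa (by linarith : 0 ≤ 2 * (g + Tm q * b))]
    _ ≤ Λ / √(2 ^ q) * g + 2 * (τ + 1 / 2 ^ 2 ^ (q - 2)) := by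
        have h9 : Λ / √(2 ^ q) * (Tm q * b) ≤ Tm q * b := mul_le_of_le_one_left hTb0 hr1
        have h10 : 0 ≤ Λ / √(2 ^ q) * g := mul_nonneg hr0 hm0
        nlinarith

end Pool.Agent.H17.EX
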