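import Pool.Agent.H98.EX.WTargets
import Pool.Agent.H64.SLN.CMT

/-!
# The exact constant of the copolymer slope: the telescoping identity (row TEL)
-/

set_option autoImplicit false

open MeasureTheory ProbabilityTheory Filter Topology
open scoped ENNReal
open Pool.Agent.H95 Pool.Agent.H95.Cop
open Pool.Agent.H55.CG (Mo)
open Pool.Agent.H98.EX

namespace Pool.Agent.H17.EX

/-- the partition function -/
noncomputable def tW (n : ℕ) (y : ℕ → ℝ) : ℝ := ∑ j ∈ Finset.range (n + 1), Real.exp (H y 0 j)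

lemma tel_H_self (y : ℕ → ℝ) (a : ℕ) : H y a a = 0 := by
  unfold H
  simp

lemma tel_H_add (y : ℕ → ℝ) {a b : ℕ} (h : a ≤ b) : H y 0 b = H y 0 a + H y a b := by
  unfold H
  rw [Finset.sum_Ico_consecutive _ (Nat.zero_le a) h]

lemma tel_H_shift (y : ℕ → ℝ) (j i : ℕ) : H y j (j + i) = H (shift j y) 0 i := by
  unfold H shift
  rw [Finset.sum_Ico_eq_sum_range, Finset.sum_Ico_eq_sum_range]
  simp [add_comm]

lemma tel_meas_H (a b : ℕ) : Measurable (fun y : ℕ → ℝ => H y a b) := by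
  unfold H
  exact Finset.measurable_sum _ (fun i _ => measurable_pi_apply i)

lemma tel_meas_VR (n : ℕ) : Measurable (VR n) := by
  unfold VR
  exact Finset.measurable_sum _ (fun i _ => (tel_meas_H 0 (i + 1)).neg.exp)

lemma tel_meas_VL (n : ℕ) : Measurable (VL n) := by
  unfold VL
  exact Finset.measurable_sum _ (fun i _ => (tel_meas_H 0 (i + 1)).exp)

lemma tel_meas_W (n : ℕ) : Measurable (tW n) := by
  unfold tW
  exact Finset.measurable_sum _ (fun i _ => (tel_meas_H 0 i).exp)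

lemma tel_VR_nonneg (n : ℕ) (y : ℕ → ℝ) : 0 ≤ VR n y :=
  Finset.sum_nonneg fun _ _ => (Real.exp_pos _).le

lemma tel_VL_nonneg (n : ℕ) (y : ℕ → ℝ) : 0 ≤ VL n y :=
  Finset.sum_nonneg fun _ _ => (Real.exp_pos _).le

lemma tel_W_pos (n : ℕ) (y : ℕ → ℝ) : 0 < tW n y :=
  Finset.sum_pos (fun _ _ => Real.exp_pos _) ⟨0, by simp⟩

lemma tel_H_rv (y : ℕ → ℝ) (j i : ℕ) (h : i < j) : H (rv j y) 0 (i + 1) = H y (j - 1 - i) j := by
  induction i with
  | zero =>
    unfold H rv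
    have e : Finset.Ico (j - 1 - 0) j = {j - 1} := by
      ext x
      rw [Finset.mem_Ico, Finset.mem_singleton]
      omega
    rw [e]
    simp
    intro h0
    omega
  | succ i ih =>
    have h1 := ih (by omega)
    have h2 : H (rv j y) 0 (i + 1 + 1) = H (rv j y) 0 (i + 1) + y (j - 1 - (i + 1)) := by
      unfold H
      rw [Finset.sum_Ico_succ_top (Nat.zero_le _)]
      congr 1
      unfold rv
      rw [if_pos h]
    rw [h2, h1]
    unfold H
    have e : j - 1 - i = (j - 1 - (i + 1)) + 1 := by omega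
    rw [e, Finset.sum_eq_sum_Ico_succ_bot (show j - 1 - (i + 1) < j by omega)]
    ring

lemma tel_VR_rv (j : ℕ) (y : ℕ → ℝ) :
    VR j (rv j y) = ∑ i ∈ Finset.range j, Real.exp (-H y i j) := by
  unfold VR
  rw [← Finset.sum_range_reflect]
  refine Finset.sum_congr rfl fun i hi => ?_
  rw [Finset.mem_range] at hi
  rw [tel_H_rv y j _ (by omega)]
  congr 3
  omega

lemma tel_VR_rv_congr (j : ℕ) {y y' : ℕ → ℝ} (h : ∀ i < j, y i = y' i) :
    VR j (rv j y) = VR j (rv j y') := by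
  rw [tel_VR_rv, tel_VR_rv]
  refine Finset.sum_congr rfl fun i hi => ?_
  congr 2
  unfold H
  refine Finset.sum_congr rfl fun l hl => ?_
  rw [Finset.mem_Ico] at hl
  exact h l hl.2

lemma tel_low (j : ℕ) (y : ℕ → ℝ) :
    ∑ i ∈ Finset.range j, Real.exp (H y 0 i) = Real.exp (H y 0 j) * VR j (rv j y) := by
  rw [tel_VR_rv, Finset.mul_sum]
  refine Finset.sum_congr rfl fun i hi => ?_
  rw [Finset.mem_range] at hi
  rw [← Real.exp_add, tel_H_add y hi.le]
  congr 1
  ring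

lemma tel_W_eq (j b : ℕ) (y : ℕ → ℝ) :
    tW (j + b) y = Real.exp (H y 0 j) * (1 + VR j (rv j y) + VL b (shift j y)) := by
  unfold tW
  rw [add_assoc, Finset.sum_range_add, tel_low, Finset.sum_range_succ']
  have h1 : ∑ k ∈ Finset.range b, Real.exp (H y 0 (j + (k + 1))) =
      Real.exp (H y 0 j) * VL b (shift j y) := by
    unfold VL
    rw [Finset.mul_sum]
    refine Finset.sum_congr rfl fun i _ => ?_
    rw [← Real.exp_add, ← tel_H_shift, tel_H_add y (show j ≤ j + (i + 1) by omega)]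
  rw [h1, add_zero]
  ring

lemma tel_W_succ (k : ℕ) (y : ℕ → ℝ) :
    tW k y = Real.exp (H y 0 (k + 1)) * VR (k + 1) (rv (k + 1) y) := by
  unfold tW
  exact tel_low (k + 1) y

lemma tel_rpow {S R θ : ℝ} (hR : 0 ≤ R) :
    Real.exp S * (Real.exp S * R) ^ (θ - 1) = Real.exp (θ * S) * R ^ (-(1 - θ)) := by
  rw [Real.mul_rpow (Real.exp_pos S).le hR, ← Real.exp_mul, ← mul_assoc, ← Real.exp_add]
  congr 2
  · ring
  · ring

/-- the tangent line of `t ^ θ` -/
lemma tel_tangent {θ a b : ℝ} (h0 : 0 ≤ θ) (h1 : θ ≤ 1) (ha : 0 < a) (hb : 0 ≤ b) :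
    b ^ θ ≤ a ^ θ + θ * (b - a) * a ^ (θ - 1) := by
  have hx : -1 ≤ (b - a) / a := by
    rw [le_div_iff₀ ha]
    linarith
  have h := rpow_one_add_le_one_add_mul_self hx h0 h1
  have e1 : 1 + (b - a) / a = b / a := by field_simp; ring
  rw [e1, Real.div_rpow hb ha.le] at h
  have hap : 0 < a ^ θ := Real.rpow_pos_of_pos ha θ
  rw [div_le_iff₀ hap] at h
  refine h.trans (le_of_eq ?_)
  rw [Real.rpow_sub_one ha.ne']
  field_simp

section
variable (ρ : Measure ℝ) [IsProbabilityMeasure ρ]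

lemma tel_le_one {u q : ℝ} (hu : 0 ≤ u) (hq : 0 ≤ q) : (1 + u) ^ (-q) ≤ 1 :=
  Real.rpow_le_one_of_one_le_of_nonpos (by linarith) (by linarith)

lemma tel_hh (n : ℕ) {q : ℝ} (hq : 0 ≤ q) :
    ENNReal.ofReal (hh ρ n q) = ∫⁻ y, ENNReal.ofReal ((1 + VR n y) ^ (-q)) ∂(iid ρ) := by
  unfold hh
  refine ofReal_integral_eq_lintegral_ofReal ?_ (Eventually.of_forall fun y => ?_)
  · refine Integrable.of_bound (C := 1)
      (((measurable_const.add (tel_meas_VR n)).pow_const _).aestronglyMeasurable)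
      (Eventually.of_forall fun y => ?_)
    have h0 := tel_VR_nonneg n y
    rw [Real.norm_of_nonneg (by positivity)]
    exact tel_le_one h0 hq
  · have h0 := tel_VR_nonneg n y
    positivity

lemma tel_meas_F (a b : ℕ) (p : ℝ) :
    Measurable (fun q : (ℕ → ℝ) × (ℕ → ℝ) => (1 + VR a q.1 + VL b q.2) ^ (-p)) :=
  (((measurable_const.add ((tel_meas_VR a).comp measurable_fst)).add
    ((tel_meas_VL b).comp measurable_snd))).pow_const _

lemma tel_F_nonneg (a b : ℕ) (p : ℝ) (z y : ℕ → ℝ) : 0 ≤ (1 + VR a z + VL b y) ^ (-p) := by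
  have h0 := tel_VR_nonneg a z
  have h1 := tel_VL_nonneg b y
  positivity

lemma tel_F_le (a b : ℕ) {p : ℝ} (hp : 0 ≤ p) (z y : ℕ → ℝ) :
    (1 + VR a z + VL b y) ^ (-p) ≤ 1 := by
  have h0 := tel_VR_nonneg a z
  have h1 := tel_VL_nonneg b y
  rw [add_assoc]
  exact tel_le_one (by positivity) hp

lemma tel_QQ (hint : ∀ t : ℝ, Integrable (fun z => Real.exp (t * z)) ρ) (θ : ℝ) {p : ℝ}
    (hp : 0 ≤ p) (a b : ℕ) :
    ENNReal.ofReal (QQ ρ θ p a b) = ∫⁻ z, ∫⁻ y, ENNReal.ofReal ((1 + VR a z + VL b y) ^ (-p))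
      ∂(iid ρ) ∂(iid (ρ.tilted fun t => θ * t)) := by
  have hprob : IsProbabilityMeasure (ρ.tilted fun t => θ * t) :=
    isProbabilityMeasure_tilted (hint θ)
  have hin : ∀ z : ℕ → ℝ, Integrable (fun y => (1 + VR a z + VL b y) ^ (-p)) (iid ρ) := by
    intro z
    refine Integrable.of_bound (C := 1)
      ((((measurable_const.add (tel_meas_VL b))).pow_const _).aestronglyMeasurable)
      (Eventually.of_forall fun y => ?_)
    rw [Real.norm_of_nonneg (tel_F_nonneg a b p z y)]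
    exact tel_F_le a b hp z y
  unfold QQ
  rw [ofReal_integral_eq_lintegral_ofReal]
  · refine lintegral_congr fun z => ?_
    exact ofReal_integral_eq_lintegral_ofReal (hin z)
      (Eventually.of_forall fun y => tel_F_nonneg a b p z y)
  · refine Integrable.of_bound (C := 1) ?_ (Eventually.of_forall fun z => ?_)
    · exact ((tel_meas_F a b p).stronglyMeasurable.integral_prod_right).aestronglyMeasurable
    · rw [Real.norm_of_nonneg (integral_nonneg fun y => tel_F_nonneg a b p z y)]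
      refine (integral_mono (hin z) (integrable_const 1) fun y => tel_F_le a b hp z y).trans ?_
      simp
  · exact Eventually.of_forall fun z => integral_nonneg fun y => tel_F_nonneg a b p z y

lemma tel_QQ_zero (hint : ∀ t : ℝ, Integrable (fun z => Real.exp (t * z)) ρ) (θ p : ℝ) (a : ℕ) :
    QQ ρ θ p a 0 = hh (ρ.tilted fun t => θ * t) a p := by
  unfold QQ hh VL
  simp

/-- splitting off the first `j` coordinates -/
lemma tel_splice (j : ℕ) (F : (ℕ → ℝ) → ℝ≥0∞) (hF : Measurable F) :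
    ∫⁻ y, F y ∂(iid ρ) = ∫⁻ z, ∫⁻ y, F (splice j (z, y)) ∂(iid ρ) ∂(iid ρ) := by
  have h := (measurePreserving_splice ρ j).lintegral_comp hF
  rw [← h]
  exact lintegral_prod _ (hF.comp (measurable_splice j)).aemeasurable

lemma tel_H_splice (j : ℕ) (z y : ℕ → ℝ) : H (splice j (z, y)) 0 j = H z 0 j := by
  unfold H
  refine Finset.sum_congr rfl fun i hi => ?_
  rw [Finset.mem_Ico] at hi
  unfold splice
  rw [if_pos hi.2]

lemma tel_rv_meas (n : ℕ) : Measurable (rv n) := by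
  unfold rv
  refine measurable_pi_lambda _ fun i => ?_
  by_cases h : i < n
  · simp only [h, if_true]
    exact measurable_pi_apply _
  · simp only [h, if_false]
    exact measurable_pi_apply _

/-- the terms of the partition function -/
lemma tel_term (hREV : T_REV) (hint : ∀ t : ℝ, Integrable (fun z => Real.exp (t * z)) ρ)
    {θ : ℝ} (hθ1 : θ ≤ 1) (j b : ℕ) :
    ∫⁻ y, ENNReal.ofReal (Real.exp (H y 0 j) * tW (j + b) y ^ (θ - 1)) ∂(iid ρ) =
      ENNReal.ofReal (Mo ρ θ ^ j * QQ ρ θ (1 - θ) j b) := by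
  have hprob : IsProbabilityMeasure (ρ.tilted fun t => θ * t) :=
    isProbabilityMeasure_tilted (hint θ)
  have hMo : 0 ≤ Mo ρ θ := integral_nonneg fun z => (Real.exp_pos _).le
  have hp : 0 ≤ 1 - θ := by linarith
  have hm : Measurable (fun y : ℕ → ℝ =>
      ENNReal.ofReal (Real.exp (H y 0 j) * tW (j + b) y ^ (θ - 1))) :=
    (((tel_meas_H 0 j).exp.mul ((tel_meas_W (j + b)).pow_const _))).ennreal_ofReal
  rw [tel_splice ρ j _ hm]
  have h1 : ∀ z y : ℕ → ℝ, ENNReal.ofReal (Real.exp (H (splice j (z, y)) 0 j) *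
      tW (j + b) (splice j (z, y)) ^ (θ - 1)) = ENNReal.ofReal (Real.exp (θ * H z 0 j)) *
      ENNReal.ofReal ((1 + VR j (rv j z) + VL b y) ^ (-(1 - θ))) := by
    intro z y
    have h0 := tel_VR_nonneg j (rv j (splice j (z, y)))
    have h0' := tel_VL_nonneg b (shift j (splice j (z, y)))
    rw [tel_W_eq, tel_rpow (by positivity), tel_H_splice, shift_splice,
      tel_VR_rv_congr j (y := splice j (z, y)) (y' := z)
        (fun i hi => by unfold splice; rw [if_pos hi]),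
      ENNReal.ofReal_mul (Real.exp_pos _).le]
  simp only [h1]
  have h2 : ∀ z : ℕ → ℝ, ∫⁻ y, ENNReal.ofReal (Real.exp (θ * H z 0 j)) *
      ENNReal.ofReal ((1 + VR j (rv j z) + VL b y) ^ (-(1 - θ))) ∂(iid ρ) =
      ENNReal.ofReal (Real.exp (θ * H z 0 j)) *
      ∫⁻ y, ENNReal.ofReal ((1 + VR j (rv j z) + VL b y) ^ (-(1 - θ))) ∂(iid ρ) :=
    fun z => lintegral_const_mul' _ _ ENNReal.ofReal_ne_top
  simp only [h2]
  have hgm : Measurable (fun z : ℕ → ℝ =>
      ∫⁻ y, ENNReal.ofReal ((1 + VR j z + VL b y) ^ (-(1 - θ))) ∂(iid ρ)) :=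
    (tel_meas_F j b (1 - θ)).ennreal_ofReal.lintegral_prod_right'
  rw [(Pool.Agent.H64.SLN.pf_CMT ρ hint θ).2.2 j (fun z : ℕ → ℝ =>
      ∫⁻ y, ENNReal.ofReal ((1 + VR j (rv j z) + VL b y) ^ (-(1 - θ))) ∂(iid ρ))
      (hgm.comp (tel_rv_meas j)) ?_]
  · have h3 := (hREV (ρ.tilted fun t => θ * t) j).lintegral_comp hgm
    rw [h3, ← tel_QQ ρ hint θ hp j b, ENNReal.ofReal_mul (pow_nonneg hMo _)]
  · intro x x' hx
    simp only [tel_VR_rv_congr j hx]

lemma tel_int_tilted (hint : ∀ t : ℝ, Integrable (fun z => Real.exp (t * z)) ρ) (θ t : ℝ) :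
    Integrable (fun z => Real.exp (t * z)) (ρ.tilted fun t => θ * t) := by
  rw [integrable_tilted_iff (hint θ)]
  refine (hint (θ + t)).congr (Eventually.of_forall fun z => ?_)
  simp only [smul_eq_mul]
  rw [← Real.exp_add]
  congr 1
  ring

lemma tel_VR_cons (k : ℕ) (y : ℕ → ℝ) :
    VR (k + 1) y = Real.exp (-y 0) * (1 + VR k (shift 1 y)) := by
  unfold VR
  rw [Finset.sum_range_succ', mul_add, Finset.mul_sum, add_comm]
  congr 1
  · unfold H
    simp
  · refine Finset.sum_congr rfl fun i _ => ?_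
    rw [← Real.exp_add, ← tel_H_shift, tel_H_add y (show 1 ≤ i + 1 + 1 by omega),
      show i + 1 + 1 = 1 + (i + 1) by omega]
    congr 1
    have : H y 0 1 = y 0 := by unfold H; simp
    rw [this]
    ring

/-- the upper increments -/
lemma tel_upper (hREV : T_REV) (hint : ∀ t : ℝ, Integrable (fun z => Real.exp (t * z)) ρ)
    {θ : ℝ} (hθ1 : θ ≤ 1) (k : ℕ) :
    ∫⁻ y, ENNReal.ofReal (Real.exp (H y 0 (k + 1)) * tW k y ^ (θ - 1)) ∂(iid ρ) =
      ENNReal.ofReal (Mo ρ θ ^ (k + 1) *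
        (Mo (ρ.tilted fun t => θ * t) (1 - θ) * hh (ρ.tilted fun t => θ * t) k (1 - θ))) := by
  have hprob : IsProbabilityMeasure (ρ.tilted fun t => θ * t) :=
    isProbabilityMeasure_tilted (hint θ)
  have hMo : 0 ≤ Mo ρ θ := integral_nonneg fun z => (Real.exp_pos _).le
  have hMo' : 0 ≤ Mo (ρ.tilted fun t => θ * t) (1 - θ) :=
    integral_nonneg fun z => (Real.exp_pos _).le
  have hp : 0 ≤ 1 - θ := by linarith
  have hint' := tel_int_tilted ρ hint θ
  have h1 : ∀ y : ℕ → ℝ, ENNReal.ofReal (Real.exp (H y 0 (k + 1)) * tW k y ^ (θ - 1)) =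
      ENNReal.ofReal (Real.exp (θ * H y 0 (k + 1))) *
      ENNReal.ofReal (VR (k + 1) (rv (k + 1) y) ^ (-(1 - θ))) := by
    intro y
    rw [tel_W_succ, tel_rpow (tel_VR_nonneg _ _), ENNReal.ofReal_mul (Real.exp_pos _).le]
  simp only [h1]
  have hgm : Measurable (fun y : ℕ → ℝ => ENNReal.ofReal (VR (k + 1) y ^ (-(1 - θ)))) :=
    ((tel_meas_VR (k + 1)).pow_const _).ennreal_ofReal
  rw [(Pool.Agent.H64.SLN.pf_CMT ρ hint θ).2.2 (k + 1)
    (fun y : ℕ → ℝ => ENNReal.ofReal (VR (k + 1) (rv (k + 1) y) ^ (-(1 - θ))))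
    (hgm.comp (tel_rv_meas (k + 1))) (fun x x' hx => by simp only [tel_VR_rv_congr (k + 1) hx]),
    (hREV (ρ.tilted fun t => θ * t) (k + 1)).lintegral_comp hgm,
    ENNReal.ofReal_mul (pow_nonneg hMo _)]
  congr 1
  rw [tel_splice (ρ.tilted fun t => θ * t) 1 _ hgm]
  have h2 : ∀ z y : ℕ → ℝ, ENNReal.ofReal (VR (k + 1) (splice 1 (z, y)) ^ (-(1 - θ))) =
      ENNReal.ofReal (Real.exp ((1 - θ) * H z 0 1)) *
      ENNReal.ofReal ((1 + VR k y) ^ (-(1 - θ))) := by
    intro z y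
    have h0 := tel_VR_nonneg k y
    have h3 : splice 1 (z, y) 0 = H z 0 1 := by
      unfold splice H
      simp
    rw [tel_VR_cons, shift_splice, h3, Real.mul_rpow (Real.exp_pos _).le (by positivity),
      ← Real.exp_mul, ENNReal.ofReal_mul (Real.exp_pos _).le]
    congr 3
    ring
  simp only [h2]
  have h4 : ∀ z : ℕ → ℝ, ∫⁻ y, ENNReal.ofReal (Real.exp ((1 - θ) * H z 0 1)) *
      ENNReal.ofReal ((1 + VR k y) ^ (-(1 - θ))) ∂(iid (ρ.tilted fun t => θ * t)) =
      ENNReal.ofReal (Real.exp ((1 - θ) * H z 0 1)) *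
      ENNReal.ofReal (hh (ρ.tilted fun t => θ * t) k (1 - θ)) := by
    intro z
    rw [lintegral_const_mul' _ _ ENNReal.ofReal_ne_top, tel_hh _ k hp]
  simp only [h4]
  rw [(Pool.Agent.H64.SLN.pf_CMT (ρ.tilted fun t => θ * t) hint' (1 - θ)).2.2 1
    (fun _ => ENNReal.ofReal (hh (ρ.tilted fun t => θ * t) k (1 - θ))) measurable_const
    (fun x x' hx => rfl), pow_one, lintegral_const]
  have hprob2 : IsProbabilityMeasure
      ((ρ.tilted fun t => θ * t).tilted fun t => (1 - θ) * t) :=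
    isProbabilityMeasure_tilted (hint' (1 - θ))
  rw [measure_univ, mul_one, ENNReal.ofReal_mul hMo']

end

theorem pf_TEL (hREV : T_REV) (hWBA : T_WBA) : T_TEL := by
  intro ρ _ hint θ n h0 h1
  have hp : 0 ≤ 1 - θ := by linarith
  have hMo : 0 ≤ Mo ρ θ := integral_nonneg fun z => (Real.exp_pos _).le
  have hMo' : 0 ≤ Mo (ρ.tilted fun t => θ * t) (1 - θ) :=
    integral_nonneg fun z => (Real.exp_pos _).le
  have hQ : ∀ a b, 0 ≤ QQ ρ θ (1 - θ) a b := fun a b => ((hWBA ρ hint θ (1 - θ) hp).1 a b).1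
  have hhn : ∀ a, 0 ≤ hh (ρ.tilted fun t => θ * t) a (1 - θ) := by
    intro a
    rw [← tel_QQ_zero ρ hint]
    exact hQ a 0
  have key : ∀ n : ℕ, ∫⁻ y, ENNReal.ofReal (tW n y ^ θ) ∂(iid ρ) =
      ENNReal.ofReal (∑ j ∈ Finset.range (n + 1), Mo ρ θ ^ j * QQ ρ θ (1 - θ) j (n - j)) := by
    intro n
    have e1 : ∀ y : ℕ → ℝ, ENNReal.ofReal (tW n y ^ θ) = ∑ j ∈ Finset.range (n + 1),
        ENNReal.ofReal (Real.exp (H y 0 j) * tW n y ^ (θ - 1)) := by
      intro y
      have hW := tel_W_pos n y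
      rw [← ENNReal.ofReal_sum_of_nonneg (fun j _ => mul_nonneg (Real.exp_pos _).le
        (Real.rpow_pos_of_pos hW _).le), ← Finset.sum_mul]
      congr 1
      rw [Real.rpow_sub_one hW.ne']
      change _ = tW n y * _
      field_simp
    simp only [e1]
    have hm : ∀ j ∈ Finset.range (n + 1), Measurable (fun y : ℕ → ℝ =>
        ENNReal.ofReal (Real.exp (H y 0 j) * tW n y ^ (θ - 1))) := fun j _ =>
      (((tel_meas_H 0 j).exp.mul ((tel_meas_W n).pow_const _))).ennreal_ofReal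
    rw [lintegral_finsetSum _ hm,
      ENNReal.ofReal_sum_of_nonneg (fun j _ => mul_nonneg (pow_nonneg hMo _) (hQ _ _))]
    refine Finset.sum_congr rfl fun j hj => ?_
    rw [Finset.mem_range] at hj
    obtain ⟨b, rfl⟩ : ∃ b, n = j + b := ⟨n - j, by omega⟩
    rw [Nat.add_sub_cancel_left]
    exact tel_term ρ hREV hint h1.le j b
  have hI : ∀ n : ℕ, 0 ≤ ∑ j ∈ Finset.range (n + 1), Mo ρ θ ^ j * QQ ρ θ (1 - θ) j (n - j) :=
    fun n => Finset.sum_nonneg fun j _ => mul_nonneg (pow_nonneg hMo _) (hQ _ _)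
  have hW1 : ∀ (k : ℕ) (y : ℕ → ℝ), tW (k + 1) y = tW k y + Real.exp (H y 0 (k + 1)) :=
    fun k y => Finset.sum_range_succ _ _
  have hup : ∀ k : ℕ, ∑ j ∈ Finset.range (k + 1 + 1), Mo ρ θ ^ j * QQ ρ θ (1 - θ) j (k + 1 - j) ≤
      ∑ j ∈ Finset.range (k + 1), Mo ρ θ ^ j * QQ ρ θ (1 - θ) j (k - j) + θ * Mo ρ θ ^ (k + 1) *
        (Mo (ρ.tilted fun t => θ * t) (1 - θ) * hh (ρ.tilted fun t => θ * t) k (1 - θ)) := by
    intro k
    have hpos : 0 ≤ θ * Mo ρ θ ^ (k + 1) *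
        (Mo (ρ.tilted fun t => θ * t) (1 - θ) * hh (ρ.tilted fun t => θ * t) k (1 - θ)) :=
      mul_nonneg (mul_nonneg h0.le (pow_nonneg hMo _)) (mul_nonneg hMo' (hhn k))
    rw [← ENNReal.ofReal_le_ofReal_iff (add_nonneg (hI k) hpos),
      ENNReal.ofReal_add (hI k) hpos, ← key (k + 1), ← key k, mul_assoc,
      ENNReal.ofReal_mul h0.le, ← tel_upper ρ hREV hint h1.le k,
      ← lintegral_const_mul' _ _ ENNReal.ofReal_ne_top,
      ← lintegral_add_left (((tel_meas_W k).pow_const _).ennreal_ofReal)]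
    refine lintegral_mono fun y => ?_
    have hW := tel_W_pos k y
    rw [← ENNReal.ofReal_mul h0.le, ← ENNReal.ofReal_add (Real.rpow_pos_of_pos hW _).le
      (mul_nonneg h0.le (mul_nonneg (Real.exp_pos _).le (Real.rpow_pos_of_pos hW _).le))]
    refine ENNReal.ofReal_le_ofReal ?_
    refine (tel_tangent h0.le h1.le hW (tel_W_pos (k + 1) y).le).trans (le_of_eq ?_)
    rw [hW1]
    ring
  have hlo : ∀ k : ℕ, ∑ j ∈ Finset.range (k + 1), Mo ρ θ ^ j * QQ ρ θ (1 - θ) j (k - j) +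
      θ * Mo ρ θ ^ (k + 1) * hh (ρ.tilted fun t => θ * t) (k + 1) (1 - θ) ≤
      ∑ j ∈ Finset.range (k + 1 + 1), Mo ρ θ ^ j * QQ ρ θ (1 - θ) j (k + 1 - j) := by
    intro k
    have hpos : 0 ≤ θ * Mo ρ θ ^ (k + 1) * hh (ρ.tilted fun t => θ * t) (k + 1) (1 - θ) :=
      mul_nonneg (mul_nonneg h0.le (pow_nonneg hMo _)) (hhn _)
    rw [← ENNReal.ofReal_le_ofReal_iff (hI (k + 1)), ENNReal.ofReal_add (hI k) hpos,
      ← key (k + 1), ← key k, mul_assoc, ENNReal.ofReal_mul h0.le, ← tel_QQ_zero ρ hint θ,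
      ← tel_term ρ hREV hint h1.le (k + 1) 0, ← lintegral_const_mul' _ _ ENNReal.ofReal_ne_top,
      ← lintegral_add_left (((tel_meas_W k).pow_const _).ennreal_ofReal)]
    refine lintegral_mono fun y => ?_
    have hW := tel_W_pos (k + 1) y
    have hWk := tel_W_pos k y
    rw [add_zero, ← ENNReal.ofReal_mul h0.le, ← ENNReal.ofReal_add
      (Real.rpow_pos_of_pos hWk _).le
      (mul_nonneg h0.le (mul_nonneg (Real.exp_pos _).le (Real.rpow_pos_of_pos hW _).le))]
    refine ENNReal.ofReal_le_ofReal ?_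
    have h2 := tel_tangent h0.le h1.le hW hWk.le
    have h3 : tW k y - tW (k + 1) y = -Real.exp (H y 0 (k + 1)) := by rw [hW1]; ring
    rw [h3] at h2
    linarith
  have hz : ∑ j ∈ Finset.range (0 + 1), Mo ρ θ ^ j * QQ ρ θ (1 - θ) j (0 - j) = 1 := by
    have h2 := key 0
    have h3 : ∀ y : ℕ → ℝ, tW 0 y = 1 := by
      intro y
      unfold tW
      simp [tel_H_self]
    simp only [h3, Real.one_rpow, ENNReal.ofReal_one, lintegral_const, measure_univ, mul_one] at h2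
    have h4 := hI 0
    have h5 : ENNReal.ofReal 1 = ENNReal.ofReal
        (∑ j ∈ Finset.range (0 + 1), Mo ρ θ ^ j * QQ ρ θ (1 - θ) j (0 - j)) := by
      rw [ENNReal.ofReal_one]
      exact h2
    exact ((ENNReal.ofReal_eq_ofReal_iff zero_le_one h4).1 h5).symm
  constructor
  · induction n with
    | zero =>
      rw [hz]
      simp
    | succ n ih =>
      rw [Finset.sum_range_succ (fun k => θ * Mo ρ θ ^ (k + 1) *
        (Mo (ρ.tilted fun t => θ * t) (1 - θ) * hh (ρ.tilted fun t => θ * t) k (1 - θ)))]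
      linarith [hup n]
  · induction n with
    | zero =>
      rw [hz]
      simp
    | succ n ih =>
      rw [Finset.sum_range_succ (fun k => θ * Mo ρ θ ^ (k + 1) *
        hh (ρ.tilted fun t => θ * t) (k + 1) (1 - θ))]
      linarith [hlo n]

end Pool.Agent.H17.EX
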