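import Pool.Agent.H98.EX.BTargets

/-!
# The concave function at the cell functional (TNG)
-/

set_option autoImplicit false

open MeasureTheory ProbabilityTheory Filter Topology
open scoped ENNReal
open Pool.Agent.H99.CE (Gf)
open Pool.Agent.H98.EX

namespace Pool.Agent.H17.EX

lemma tng_anti {a t x y : ℝ} (ha : 0 < a) (ht : 0 < t) (hx : 0 < x) (hxy : x ≤ y) :
    y ^ (-a) * (max (Real.log (y / t)) 0 + 1 / a) ≤
      x ^ (-a) * (max (Real.log (x / t)) 0 + 1 / a) := by
  have hy : 0 < y := hx.trans_le hxy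
  have hl : Real.log x ≤ Real.log y := Real.log_le_log hx hxy
  rw [Real.rpow_def_of_pos hx, Real.rpow_def_of_pos hy, Real.log_div hy.ne' ht.ne',
    Real.log_div hx.ne' ht.ne']
  obtain ⟨r, hr⟩ : ∃ r, r = Real.log y - Real.log x := ⟨_, rfl⟩
  have hr0 : 0 ≤ r := by linarith
  have e1 : Real.exp (Real.log y * -a) =
      Real.exp (Real.log x * -a) * Real.exp (-(a * r)) := by
    rw [← Real.exp_add]
    congr 1
    rw [hr]
    ring
  rw [e1, mul_assoc]
  refine mul_le_mul_of_nonneg_left ?_ (Real.exp_pos _).le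
  obtain ⟨L, hL⟩ : ∃ L, L = max (Real.log x - Real.log t) 0 := ⟨_, rfl⟩
  have hLl : Real.log x - Real.log t ≤ L := hL ▸ le_max_left _ _
  have hL0 : 0 ≤ L := hL ▸ le_max_right _ _
  have h1 : max (Real.log y - Real.log t) 0 ≤ L + r := by
    refine max_le ?_ ?_ <;> linarith
  rw [← hL]
  have har : 0 ≤ a * r := mul_nonneg ha.le hr0
  have h2 : Real.exp (-(a * r)) ≤ 1 := Real.exp_le_one_iff.2 (by linarith)
  have h3 : Real.exp (-(a * r)) * (a * r + 1) ≤ 1 := by
    calc _ ≤ Real.exp (-(a * r)) * Real.exp (a * r) :=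
          mul_le_mul_of_nonneg_left (Real.add_one_le_exp (a * r)) (Real.exp_pos _).le
      _ = 1 := by rw [← Real.exp_add]; simp
  calc Real.exp (-(a * r)) * (max (Real.log y - Real.log t) 0 + 1 / a)
      ≤ Real.exp (-(a * r)) * (L + r + 1 / a) :=
        mul_le_mul_of_nonneg_left (by linarith) (Real.exp_pos _).le
    _ = Real.exp (-(a * r)) * L + (Real.exp (-(a * r)) * (a * r + 1)) / a := by
        field_simp
        ring
    _ ≤ 1 * L + 1 / a := add_le_add (mul_le_mul_of_nonneg_right h2 hL0)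
        (div_le_div_of_nonneg_right h3 ha.le)
    _ = _ := by ring

lemma tng_W {V t a S n : ℝ} (hV : 0 < V) (hVt : V ≤ t) (ha : 1 / 4 ≤ a) (hn : 1 ≤ n) :
    (V * (Real.exp S * n)) ^ (-a) *
        (max (Real.log (V * (Real.exp S * n) / t)) 0 + 1 / a) ≤
      V ^ (-a) * (Real.exp (-a * S) * (n ^ (-a) * max S 0 + 6)) := by
  have ht : 0 < t := hV.trans_le hVt
  have hn0 : 0 < n := by linarith
  have ha0 : 0 < a := by linarith
  have hl0 : 0 ≤ Real.log n := Real.log_nonneg hn
  have e1 : (V * (Real.exp S * n)) ^ (-a) = V ^ (-a) * (Real.exp (-a * S) * n ^ (-a)) := by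
    rw [Real.mul_rpow hV.le (mul_nonneg (Real.exp_pos _).le hn0.le),
      Real.mul_rpow (Real.exp_pos _).le hn0.le, ← Real.exp_mul, mul_comm S (-a)]
  have e2 : Real.log (V * (Real.exp S * n) / t) =
      Real.log V - Real.log t + (S + Real.log n) := by
    rw [Real.log_div (mul_pos hV (mul_pos (Real.exp_pos _) hn0)).ne' ht.ne',
      Real.log_mul hV.ne' (mul_pos (Real.exp_pos _) hn0).ne',
      Real.log_mul (Real.exp_pos _).ne' hn0.ne', Real.log_exp]
    ring
  have h1 : max (Real.log (V * (Real.exp S * n) / t)) 0 ≤ max S 0 + Real.log n := by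
    rw [e2]
    have := Real.log_le_log hV hVt
    have h1 := le_max_left S 0
    have h2 := le_max_right S 0
    exact max_le (by linarith) (by linarith)
  have hna : n ^ (-a) = Real.exp (-(a * Real.log n)) := by
    rw [Real.rpow_def_of_pos hn0]
    congr 1
    ring
  have hna0 : 0 < n ^ (-a) := Real.rpow_pos_of_pos hn0 _
  have hna1 : n ^ (-a) ≤ 1 := by
    rw [hna]
    exact Real.exp_le_one_iff.2 (by nlinarith)
  have he : Real.exp (-1) ≤ 1 / 2 := by
    rw [Real.exp_neg]
    have h2 : (2 : ℝ) ≤ Real.exp 1 := by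
      have := Real.add_one_le_exp (1 : ℝ)
      linarith
    rw [one_div]
    exact inv_anti₀ (by norm_num) h2
  have h2 : n ^ (-a) * Real.log n ≤ 2 := by
    have h3 : Real.exp (-(a * Real.log n)) * (a * Real.log n) ≤ 1 / 2 := by
      calc _ ≤ Real.exp (-(a * Real.log n)) * Real.exp (a * Real.log n - 1) := by
            refine mul_le_mul_of_nonneg_left ?_ (Real.exp_pos _).le
            have := Real.add_one_le_exp (a * Real.log n - 1)
            linarith
        _ = Real.exp (-1) := by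
            rw [← Real.exp_add]
            congr 1
            ring
        _ ≤ 1 / 2 := he
    rw [← hna] at h3
    have h4 : n ^ (-a) * Real.log n * a ≤ 2 * a := by
      calc _ = n ^ (-a) * (a * Real.log n) := by ring
        _ ≤ 1 / 2 := h3
        _ ≤ 2 * a := by linarith
    exact le_of_mul_le_mul_right h4 ha0
  have h3 : n ^ (-a) * (1 / a) ≤ 4 := by
    have h4 : 1 / a ≤ 4 := by
      rw [div_le_iff₀ ha0]
      linarith
    calc _ ≤ 1 * (1 / a) := mul_le_mul_of_nonneg_right hna1 (by positivity)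
      _ ≤ 4 := by linarith
  rw [e1]
  calc V ^ (-a) * (Real.exp (-a * S) * n ^ (-a)) *
        (max (Real.log (V * (Real.exp S * n) / t)) 0 + 1 / a)
      ≤ V ^ (-a) * (Real.exp (-a * S) * n ^ (-a)) * (max S 0 + Real.log n + 1 / a) :=
        mul_le_mul_of_nonneg_left (by linarith)
          (mul_nonneg (Real.rpow_pos_of_pos hV _).le
            (mul_nonneg (Real.exp_pos _).le hna0.le))
    _ = V ^ (-a) * (Real.exp (-a * S) *
          (n ^ (-a) * max S 0 + (n ^ (-a) * Real.log n + n ^ (-a) * (1 / a)))) := by ring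
    _ ≤ _ := by
        refine mul_le_mul_of_nonneg_left ?_ (Real.rpow_pos_of_pos hV _).le
        refine mul_le_mul_of_nonneg_left ?_ (Real.exp_pos _).le
        linarith

theorem pf_TNG : T_TNG := by
  intro V t θ hV hVt hθ hθ' ι P S n N hn hE
  have ht : 0 < t := hV.trans_le hVt
  rcases P.eq_empty_or_nonempty with rfl | hP
  · simp only [Finset.sum_empty]
    refine (iInf_le _ (⟨t, le_rfl⟩ : {m : ℝ // t ≤ m})).trans ?_
    simp [div_self ht.ne']
  obtain ⟨a, ha⟩ : ∃ a, a = 1 - θ := ⟨_, rfl⟩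
  have hθa : θ - 1 = -a := by rw [ha]; ring
  have hθ1 : θ = 1 - a := by rw [ha]; ring
  have ha4 : 1 / 4 ≤ a := by linarith
  have ha0 : 0 < a := by linarith
  obtain ⟨E, hEE⟩ : ∃ E, E = ∑ p ∈ P, Real.exp (S p) := ⟨_, rfl⟩
  have hE0 : 0 < E := hEE ▸ Finset.sum_pos (fun p _ => Real.exp_pos _) hP
  obtain ⟨F, hF⟩ : ∃ F, F = V * E := ⟨_, rfl⟩
  have hF0 : 0 < F := hF ▸ mul_pos hV hE0
  obtain ⟨ψ, hψ⟩ : ∃ ψ, ψ = F ^ (-a) * (max (Real.log (F / t)) 0 + 1 / a) := ⟨_, rfl⟩
  have hFa : 0 < F ^ (-a) := Real.rpow_pos_of_pos hF0 _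
  have hψ0 : 0 ≤ ψ := by
    rw [hψ]
    have := le_max_right (Real.log (F / t)) 0
    positivity
  have hα : (max t F) ^ θ * ((1 - θ) * Real.log (max t F / t)) ≤ a * (F * ψ) := by
    rcases le_total F t with h | h
    · rw [max_eq_left h, div_self ht.ne', Real.log_one, mul_zero, mul_zero]
      positivity
    · rw [max_eq_right h, ← ha, hψ]
      have h1 : F * F ^ (-a) = F ^ θ := by
        rw [hθ1, sub_eq_add_neg, Real.rpow_add hF0, Real.rpow_one]
      have h2 : Real.log (F / t) ≤ max (Real.log (F / t)) 0 + 1 / a := by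
        have := le_max_left (Real.log (F / t)) 0
        have : 0 < 1 / a := by positivity
        linarith
      calc F ^ θ * (a * Real.log (F / t))
          ≤ F ^ θ * (a * (max (Real.log (F / t)) 0 + 1 / a)) := by gcongr
        _ = _ := by rw [← h1]; ring
  have hβ : (max t F) ^ (θ - 1) * (θ * Real.log (max t F / t) + 1 / (1 - θ)) ≤
      θ * ψ + F ^ (-a) := by
    have e1 : θ * (F ^ (-a) * (1 / a)) + F ^ (-a) = F ^ (-a) * (1 / a) := by
      rw [hθ1]
      field_simp
      ring
    rw [hθa, ← ha, hψ]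
    rcases le_total F t with h | h
    · rw [max_eq_left h, div_self ht.ne', Real.log_one, mul_zero, zero_add]
      have h1 : t ^ (-a) ≤ F ^ (-a) :=
        Real.rpow_le_rpow_of_nonpos hF0 h (by linarith)
      have h2 := le_max_right (Real.log (F / t)) 0
      have h3 : 0 ≤ θ * (F ^ (-a) * max (Real.log (F / t)) 0) := by positivity
      calc t ^ (-a) * (1 / a) ≤ F ^ (-a) * (1 / a) :=
            mul_le_mul_of_nonneg_right h1 (by positivity)
        _ = θ * (F ^ (-a) * (1 / a)) + F ^ (-a) := e1.symm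
        _ ≤ θ * (F ^ (-a) * max (Real.log (F / t)) 0) +
            (θ * (F ^ (-a) * (1 / a)) + F ^ (-a)) := by linarith
        _ = _ := by ring
    · rw [max_eq_right h]
      have h1 : 0 ≤ Real.log (F / t) := Real.log_nonneg ((one_le_div ht).2 h)
      rw [max_eq_left h1]
      have : F ^ (-a) * (θ * Real.log (F / t) + 1 / a) =
          θ * (F ^ (-a) * (Real.log (F / t))) + (θ * (F ^ (-a) * (1 / a)) + F ^ (-a)) := by
        rw [e1]; ring
      rw [this]
      exact le_of_eq (by ring)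
  have hψp : ∀ p ∈ P, ψ ≤ V ^ (-a) * (Real.exp (-a * S p) *
      (n p ^ (-a) * max (S p) 0 + 6)) := by
    intro p hp
    rw [hψ]
    refine (tng_anti ha0 ht (mul_pos hV (mul_pos (Real.exp_pos (S p))
      (by linarith [hn p hp] : (0 : ℝ) < n p))) ?_).trans (tng_W hV hVt ha4 (hn p hp))
    rw [hF]
    refine mul_le_mul_of_nonneg_left ?_ hV.le
    rw [hEE]
    exact hE p hp
  have hFp : ∀ p ∈ P, F ^ (-a) ≤ V ^ (-a) * Real.exp (-a * S p) := by
    intro p hp
    have h1 : V * Real.exp (S p) ≤ F := by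
      rw [hF]
      refine mul_le_mul_of_nonneg_left ?_ hV.le
      rw [hEE]
      exact Finset.single_le_sum (f := fun p => Real.exp (S p))
        (fun _ _ => (Real.exp_pos _).le) hp
    calc F ^ (-a) ≤ (V * Real.exp (S p)) ^ (-a) :=
          Real.rpow_le_rpow_of_nonpos (mul_pos hV (Real.exp_pos _)) h1 (by linarith)
      _ = _ := by
          rw [Real.mul_rpow hV.le (Real.exp_pos _).le, ← Real.exp_mul, mul_comm (S p) (-a)]
  have hVV : V * V ^ (-a) = V ^ θ := by
    rw [hθ1, sub_eq_add_neg, Real.rpow_add hV, Real.rpow_one]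
  have hmx : ∀ p, 0 ≤ max (S p) 0 := fun p => le_max_right _ _
  have hX0 : ∀ p ∈ P, 0 ≤ n p ^ (-a) * max (S p) 0 := fun p hp =>
    mul_nonneg (Real.rpow_nonneg (by linarith [hn p hp]) _) (hmx p)
  have hVa : 0 < V ^ (-a) := Real.rpow_pos_of_pos hV _
  have hVθ : 0 < V ^ θ := Real.rpow_pos_of_pos hV _
  rw [Finset.sum_add_distrib]
  refine (iInf_le _ (⟨max t F, le_max_left _ _⟩ : {m : ℝ // t ≤ m})).trans
    (add_le_add ?_ ?_)
  · show ENNReal.ofReal ((max t F) ^ θ * ((1 - θ) * Real.log (max t F / t))) ≤ _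
    rw [← ENNReal.ofReal_sum_of_nonneg]
    · refine ENNReal.ofReal_le_ofReal (hα.trans ?_)
      rw [hF, hEE, Finset.mul_sum, Finset.sum_mul, Finset.mul_sum]
      refine Finset.sum_le_sum fun p hp => ?_
      rw [hθa, ← ha]
      calc a * (V * Real.exp (S p) * ψ)
          ≤ a * (V * Real.exp (S p) * (V ^ (-a) * (Real.exp (-a * S p) *
              (n p ^ (-a) * max (S p) 0 + 6)))) := by
            refine mul_le_mul_of_nonneg_left ?_ ha0.le
            exact mul_le_mul_of_nonneg_left (hψp p hp) (mul_pos hV (Real.exp_pos _)).le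
        _ = (V * V ^ (-a)) * (a * ((Real.exp (S p) * Real.exp (-a * S p)) *
              (n p ^ (-a) * max (S p) 0 + 6))) := by ring
        _ = V ^ θ * (a * (Real.exp (θ * S p) * (n p ^ (-a) * max (S p) 0 + 6))) := by
            rw [hVV, ← Real.exp_add]
            congr 4
            rw [hθ1]
            ring
        _ ≤ _ := by
            refine mul_le_mul_of_nonneg_left ?_ hVθ.le
            refine mul_le_mul_of_nonneg_left ?_ ha0.le
            refine mul_le_mul_of_nonneg_left ?_ (Real.exp_pos _).le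
            linarith
    · intro p hp
      rw [hθa, ← ha]
      have := hX0 p hp
      positivity
  · show ENNReal.ofReal ((max t F) ^ (θ - 1) *
      (θ * Real.log (max t F / t) + 1 / (1 - θ))) * ∑ p ∈ P, N p ≤ _
    rw [Finset.mul_sum]
    refine Finset.sum_le_sum fun p hp => ?_
    refine mul_le_mul' (ENNReal.ofReal_le_ofReal (hβ.trans ?_)) le_rfl
    rw [hθa]
    have h1 := mul_le_mul_of_nonneg_left (hψp p hp) (by linarith : 0 ≤ θ)
    have h2 := hFp p hp
    have h3 := hX0 p hp
    calc θ * ψ + F ^ (-a)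
        ≤ θ * (V ^ (-a) * (Real.exp (-a * S p) * (n p ^ (-a) * max (S p) 0 + 6))) +
          V ^ (-a) * Real.exp (-a * S p) := add_le_add h1 h2
      _ = V ^ (-a) * (Real.exp (-a * S p) *
          (θ * (n p ^ (-a) * max (S p) 0) + (6 * θ + 1))) := by ring
      _ ≤ _ := by
          refine mul_le_mul_of_nonneg_left ?_ hVa.le
          refine mul_le_mul_of_nonneg_left ?_ (Real.exp_pos _).le
          linarith

end Pool.Agent.H17.EX
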